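import Mathlib

/-!
# The static game of one phase

Parameters: the neighbourhoods `N`, the edge classes `kc`, the bases `b`, the unit `u` and the number
`q` of classes.  A state consists of an orientation (`inn v` is the set of the neighbours from which
the edge is directed into `v`) and of the set of the active nodes.  The excess of `v` is
`(inn v).card - b v`.  A slot of class `c`: every passive node `y` asks at most `u` of the nodes
`x` such that `y ∈ inn x`, `b x = b y + 1`, `x` is active, and the edge is of class `c`; every node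
gives at most `u` of the edges it is asked for, and these edges are reversed.  Afterwards an
active node stays active iff its excess is at least `u`, and a passive node becomes active iff its
excess is at least `2 u - 1`.
-/

namespace HEO71

open Classical

/-- A canonical subset of `s` with `min u s.card` elements. -/
noncomputable def tk (u : ℕ) (s : Finset ℕ) : Finset ℕ :=
  if h : u ≤ s.card then (Finset.exists_subset_card_eq h).choose else s

/-- The parameters of a game. -/
structure Par where
  N : ℕ → Finset ℕ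
  kc : ℕ → ℕ → ℕ
  b : ℕ → ℕ
  u : ℕ
  q : ℕ

/-- The states of a game. -/
structure GS where
  inn : ℕ → Finset ℕ
  act : ℕ → Prop

/-- The nodes `y` may ask. -/
noncomputable def par (P : Par) (s : GS) (c y : ℕ) : Finset ℕ :=
  (P.N y).filter (fun x => y ∈ s.inn x ∧ P.b x = P.b y + 1 ∧ s.act x ∧ P.kc y x = c)

/-- The nodes which `y` asks. -/
noncomputable def ask (P : Par) (s : GS) (c y : ℕ) : Finset ℕ :=
  if s.act y then ∅ else tk P.u (par P s c y)

/-- The nodes to which `x` gives. -/
noncomputable def give (P : Par) (s : GS) (c x : ℕ) : Finset ℕ :=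
  tk P.u ((P.N x).filter (fun y => x ∈ ask P s c y))

/-- The nodes from which `y` receives. -/
noncomputable def recv (P : Par) (s : GS) (c y : ℕ) : Finset ℕ :=
  (P.N y).filter (fun x => y ∈ give P s c x)

/-- The new orientation. -/
noncomputable def inn1 (P : Par) (s : GS) (c v : ℕ) : Finset ℕ :=
  (s.inn v \ give P s c v) ∪ recv P s c v

/-- One slot. -/
noncomputable def step (P : Par) (s : GS) (c : ℕ) : GS :=
  ⟨inn1 P s c, fun v => if s.act v then P.b v + P.u ≤ (inn1 P s c v).card
    else P.b v + 2 * P.u ≤ (inn1 P s c v).card + 1⟩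

/-- The game. -/
noncomputable def gs (P : Par) (s : GS) : ℕ → GS
  | 0 => s
  | t + 1 => step P (gs P s t) (t % P.q)

/-- The nodes to which `x` gives in slot `t`. -/
noncomputable def gv (P : Par) (s : GS) (t x : ℕ) : Finset ℕ := give P (gs P s t) (t % P.q) x

/-- The nodes from which `y` receives in slot `t`. -/
noncomputable def rv (P : Par) (s : GS) (t y : ℕ) : Finset ℕ := recv P (gs P s t) (t % P.q) y

/-- The invariants. -/
structure Inv (P : Par) (s : GS) : Prop where
  sub : ∀ v, s.inn v ⊆ P.N v
  ori : ∀ u v, u ∈ P.N v → (u ∈ s.inn v ↔ v ∉ s.inn u)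
  ble : ∀ v, P.b v ≤ (s.inn v).card
  lip : ∀ v, ∀ w ∈ s.inn v, P.b v ≤ P.b w + 1
  up : ∀ v, s.act v → P.b v + P.u ≤ (s.inn v).card
  lo : ∀ v, ¬ s.act v → (s.inn v).card + 2 ≤ P.b v + 2 * P.u

/-- The hypotheses on the parameters. -/
structure Good (P : Par) (d D : ℕ) : Prop where
  symm : ∀ u v, u ∈ P.N v → v ∈ P.N u
  irr : ∀ v, v ∉ P.N v
  deg : ∀ v, (P.N v).card ≤ d
  cls : ∀ v c, c < P.q → ((P.N v).filter (fun w => P.kc v w = c)).card ≤ D
  comm : ∀ v w, w ∈ P.N v → P.kc v w = P.kc w v
  lt : ∀ v w, w ∈ P.N v → P.kc v w < P.q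
  upos : 1 ≤ P.u
  qpos : 0 < P.q

/-- The pair `(x, y)` is hot. -/
def hot (P : Par) (s : GS) (x y : ℕ) : Prop :=
  y ∈ s.inn x ∧ P.b x = P.b y + 1 ∧ s.act x ∧ ¬ s.act y

theorem step_inn (P : Par) (s : GS) (c v : ℕ) : (step P s c).inn v = inn1 P s c v := rfl

theorem step_act (P : Par) (s : GS) (c v : ℕ) : (step P s c).act v ↔
    (if s.act v then P.b v + P.u ≤ (inn1 P s c v).card
    else P.b v + 2 * P.u ≤ (inn1 P s c v).card + 1) := Iff.rfl

theorem gs_succ (P : Par) (s : GS) (t : ℕ) : gs P s (t + 1) = step P (gs P s t) (t % P.q) := rfl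

theorem tk_sub (u : ℕ) (s : Finset ℕ) : tk u s ⊆ s := by
  unfold tk
  split_ifs with h
  · exact (Finset.exists_subset_card_eq h).choose_spec.1
  · exact Finset.Subset.refl _

theorem tk_card_le (u : ℕ) (s : Finset ℕ) : (tk u s).card ≤ u := by
  unfold tk
  split_ifs with h
  · exact (Finset.exists_subset_card_eq h).choose_spec.2.le
  · omega

theorem tk_card_of_le {u : ℕ} {s : Finset ℕ} (h : u ≤ s.card) : (tk u s).card = u := by
  unfold tk
  rw [dif_pos h]
  exact (Finset.exists_subset_card_eq h).choose_spec.2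

theorem tk_card_of_notMem {u : ℕ} {s : Finset ℕ} {x : ℕ} (hx : x ∈ s) (hn : x ∉ tk u s) :
    (tk u s).card = u := by
  unfold tk at hn ⊢
  split_ifs at hn ⊢ with h
  · exact (Finset.exists_subset_card_eq h).choose_spec.2
  · exact absurd hx hn

theorem tk_nonempty {u : ℕ} {s : Finset ℕ} (hu : 1 ≤ u) (hs : s.Nonempty) :
    (tk u s).Nonempty := by
  by_cases h : u ≤ s.card
  · rw [← Finset.card_pos, tk_card_of_le h]
    exact hu
  · unfold tk
    rw [dif_neg h]
    exact hs

end HEO71
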