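import Mathlib
import Pool.Agent.HEO71.Defs

/-!
# One slot of the game

Proofs.  `give_spec`: `y ∈ give x` is a member of the filter, so `y ∈ N x` and `x ∈ ask y`; hence
`y` is not active and `x ∈ tk u (par y) ⊆ par y`, which gives everything else (`ask` of an
active node is empty).
`mem_recv`: `recv` filters `N y`, and `x ∈ N y` follows from `give_spec`.
`give_card_le`: `tk_card_le`.  `recv_card_le`: if `x ∈ recv y` then `x ∈ ask y` (as `y` is in the
filter defining `give x`), so `recv y ⊆ ask y`, and `(ask y).card ≤ u` by `tk_card_le`.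
`give_empty`, `recv_empty`: by `give_spec`.
`card_inn1_act`: `recv v = ∅` and `give v ⊆ inn v`, so `inn1 v = inn v \ give v`.
`card_inn1_pass`: `give v = ∅`; `recv v` is disjoint from `inn v`: if `x ∈ recv v` then
`v ∈ inn x` (give_spec) and by `ori` (with `x ∈ N v`) `x ∉ inn v`.
`not_given_A`: `y` lies in the filter defining `give x`; use `tk_card_of_notMem`.
`not_asked_B`: the same with `ask`.
`exists_give`: `par y` is nonempty, so `ask y = tk u (par y)` is nonempty; take `x'` in it; then `y`
lies in the filter defining `give x'` (`x' ∈ N y` so `y ∈ N x'`), so `give x'` is nonempty.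
`mem_inn1`: unfold, with `mem_recv`.
`inv_step`: `sub`: by `mem_inn1` and `give_spec`.  `ori`: for `u ∈ N v`, `u ∈ inn1 v` iff
(`u ∈ inn v` and `u ∉ give v`) or `v ∈ give u`; the same for `v ∈ inn1 u`; `v ∈ give u` implies
`v ∈ inn u`, `u ∈ give v` implies `u ∈ inn v`; `tauto` with `ori`.  `ble`: active: `card_inn1_act`,
`give_card_le` and `up`; passive: `card_inn1_pass`.  `lip`: for `w ∈ inn1 v`: either `w ∈ inn v`
or `v ∈ give w` and then `b w = b v + 1`.  `up`, `lo`: from the definition of the new `act`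
(`if` on the old `act`; use `u ≥ 1`).
-/

namespace HEO71

open Classical

section

variable {P : Par} {d D : ℕ} (hG : Good P d D) {s : GS} {c : ℕ}

include hG

theorem give_spec {x y : ℕ} (h : y ∈ give P s c x) :
    y ∈ P.N x ∧ x ∈ P.N y ∧ y ∈ s.inn x ∧ P.b x = P.b y + 1 ∧ s.act x ∧ ¬ s.act y ∧
      P.kc y x = c := by
  have h1 := tk_sub _ _ h
  rw [Finset.mem_filter] at h1
  obtain ⟨h1, h2⟩ := h1
  unfold ask at h2
  split_ifs at h2 with h3
  · exact absurd h2 (Finset.notMem_empty x)
  · have h4 := tk_sub _ _ h2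
    unfold par at h4
    rw [Finset.mem_filter] at h4
    obtain ⟨h4, h5, h6, h7, h8⟩ := h4
    exact ⟨h1, h4, h5, h6, h7, h3, h8⟩

theorem mem_recv {x y : ℕ} : x ∈ recv P s c y ↔ y ∈ give P s c x := by
  unfold recv
  rw [Finset.mem_filter]
  exact ⟨fun h => h.2, fun h => ⟨(give_spec hG h).2.1, h⟩⟩

omit hG in
theorem give_card_le (x : ℕ) : (give P s c x).card ≤ P.u := tk_card_le _ _

omit hG in
private theorem mem_ask {x y : ℕ} (h : y ∈ give P s c x) : x ∈ ask P s c y := by
  have h1 := tk_sub _ _ h
  rw [Finset.mem_filter] at h1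
  exact h1.2

theorem recv_card_le (y : ℕ) : (recv P s c y).card ≤ P.u := by
  refine (Finset.card_le_card (t := ask P s c y) ?_).trans ?_
  · intro x hx
    exact mem_ask ((mem_recv hG).1 hx)
  · unfold ask
    split_ifs
    · simp
    · exact tk_card_le _ _

theorem give_empty {x : ℕ} (h : ¬ s.act x) : give P s c x = ∅ :=
  Finset.eq_empty_of_forall_notMem fun _ hy => h (give_spec hG hy).2.2.2.2.1

theorem recv_empty {y : ℕ} (h : s.act y) : recv P s c y = ∅ :=
  Finset.eq_empty_of_forall_notMem fun _ hx =>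
    (give_spec hG ((mem_recv hG).1 hx)).2.2.2.2.2.1 h

theorem not_given_A {x y : ℕ} (hxy : x ∈ ask P s c y) (hn : y ∉ give P s c x) :
    (give P s c x).card = P.u := by
  refine tk_card_of_notMem (x := y) ?_ hn
  rw [Finset.mem_filter]
  refine ⟨?_, hxy⟩
  unfold ask at hxy
  split_ifs at hxy with h3
  · exact absurd hxy (Finset.notMem_empty x)
  · have h4 := tk_sub _ _ hxy
    unfold par at h4
    rw [Finset.mem_filter] at h4
    exact hG.symm _ _ h4.1

omit hG in
theorem not_asked_B {x y : ℕ} (hx : x ∈ par P s c y) (hy : ¬ s.act y) (hn : x ∉ ask P s c y) :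
    (ask P s c y).card = P.u := by
  unfold ask at hn ⊢
  rw [if_neg hy] at hn ⊢
  exact tk_card_of_notMem hx hn

theorem exists_give {x y : ℕ} (hx : x ∈ par P s c y) (hy : ¬ s.act y) :
    ∃ x' y', y' ∈ give P s c x' := by
  obtain ⟨x', hx'⟩ := tk_nonempty (u := P.u) hG.upos ⟨x, hx⟩
  have h1 : x' ∈ ask P s c y := by
    unfold ask
    rw [if_neg hy]
    exact hx'
  have h2 := tk_sub _ _ hx'
  unfold par at h2
  rw [Finset.mem_filter] at h2
  obtain ⟨y', hy'⟩ := tk_nonempty (u := P.u) (s := (P.N x').filter (fun y => x' ∈ ask P s c y))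
    hG.upos ⟨y, by
      rw [Finset.mem_filter]
      exact ⟨hG.symm _ _ h2.1, h1⟩⟩
  exact ⟨x', y', hy'⟩

theorem mem_inn1 {v w : ℕ} : w ∈ inn1 P s c v ↔
    (w ∈ s.inn v ∧ w ∉ give P s c v) ∨ v ∈ give P s c w := by
  unfold inn1
  rw [Finset.mem_union, Finset.mem_sdiff, mem_recv hG]

variable (hI : Inv P s)

include hI

omit hI in
private theorem give_sub (v : ℕ) : give P s c v ⊆ s.inn v :=
  fun _ hy => (give_spec hG hy).2.2.1

omit hI in
private theorem card_act' {v : ℕ} (h : s.act v) :
    (inn1 P s c v).card + (give P s c v).card = (s.inn v).card := by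
  unfold inn1
  rw [recv_empty hG h, Finset.union_empty]
  exact Finset.card_sdiff_add_card_eq_card (give_sub hG v)

theorem card_inn1_act {v : ℕ} (h : s.act v) :
    (inn1 P s c v).card + (give P s c v).card = (s.inn v).card := by
  have := hI
  exact card_act' hG h

theorem card_inn1_pass {v : ℕ} (h : ¬ s.act v) :
    (inn1 P s c v).card = (s.inn v).card + (recv P s c v).card := by
  unfold inn1
  rw [give_empty hG h, Finset.sdiff_empty]
  refine Finset.card_union_of_disjoint ?_
  rw [Finset.disjoint_left]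
  intro x hx hx'
  obtain ⟨-, h2, h3, -⟩ := give_spec hG ((mem_recv hG).1 hx')
  exact (hI.ori x v h2).1 hx h3

theorem inv_step : Inv P (step P s c) := by
  have hu := hG.upos
  refine ⟨?_, ?_, ?_, ?_, ?_, ?_⟩
  · intro v w hw
    rw [step_inn, mem_inn1 hG] at hw
    rcases hw with ⟨h, -⟩ | h
    · exact hI.sub v h
    · exact (give_spec hG h).2.1
  · intro u v huv
    rw [step_inn, step_inn, mem_inn1 hG, mem_inn1 hG]
    have h1 := hI.ori u v huv
    have h2 : v ∈ give P s c u → v ∈ s.inn u := fun h => (give_spec hG h).2.2.1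
    have h3 : u ∈ give P s c v → u ∈ s.inn v := fun h => (give_spec hG h).2.2.1
    tauto
  · intro v
    rw [step_inn]
    by_cases h : s.act v
    · have h1 := card_inn1_act (c := c) hG hI h
      have h2 := give_card_le (P := P) (s := s) (c := c) v
      have h3 := hI.up v h
      omega
    · have h1 := card_inn1_pass (c := c) hG hI h
      have h3 := hI.ble v
      omega
  · intro v w hw
    rw [step_inn, mem_inn1 hG] at hw
    rcases hw with ⟨h, -⟩ | h
    · exact hI.lip v w h
    · have := (give_spec hG h).2.2.2.1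
      omega
  · intro v hv
    rw [step_act] at hv
    rw [step_inn]
    split_ifs at hv
    · exact hv
    · omega
  · intro v hv
    rw [step_act] at hv
    rw [step_inn]
    split_ifs at hv
    · omega
    · omega

end

end HEO71
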