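import Mathlib
import Pool.Agent.HEO71.Step

/-!
# The run of the game

Proofs.  `inv_gs`: induction with `inv_step`.
`crit_back`: induction on `t'`: if `y ∈ inn1 x` at `t' + 1` then by `mem_inn1` either `y ∈ inn x` at
`t'`, or `x ∈ give y`, and then `b y = b x + 1`, contradiction.
`give_disj`: let `t < t'` and `y` in both; then `y ∉ inn x` at `t + 1` (by `mem_inn1`: `y ∈ give x`
excludes the first case, and `x ∈ give y` would need `b y = b x + 1`), but `y ∈ inn x` at `t'`
(give_spec) and so at `t + 1` by `crit_back`, contradiction.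
`recv_disj`: `x ∈ rv t y ∩ rv t' y` gives `y ∈ gv t x ∩ gv t' x`.
`gives_of_drop`: `v` active at `t`, not at `t + 1`: if `gv t v = ∅` then by `card_inn1_act` the
cardinality of `inn v` is unchanged, and `up` says that `v` stays active.
`recv_of_rise`: similarly with `card_inn1_pass` and `lo`.
`persist`: the state does not change in a slot in which nobody gives.
-/

namespace HEO71

open Classical

section

variable {P : Par} {d D : ℕ} (hG : Good P d D) {s : GS} (hI : Inv P s)

include hG hI

theorem inv_gs (t : ℕ) : Inv P (gs P s t) := by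
  induction t with
  | zero => exact hI
  | succ t ih =>
    rw [gs_succ]
    exact inv_step hG ih

theorem crit_back {t t' : ℕ} (h : t ≤ t') {x y : ℕ} (hy : y ∈ (gs P s t').inn x)
    (hb : P.b y < P.b x) : y ∈ (gs P s t).inn x := by
  induction t', h using Nat.le_induction with
  | base => exact hy
  | succ n hn ih =>
    rw [gs_succ, step_inn] at hy
    rcases (mem_inn1 hG).1 hy with h1 | h1
    · exact ih h1.1
    · have := (give_spec hG h1).2.2.2.1
      omega

private theorem give_disj_lt {t t' : ℕ} (h : t < t') {x y : ℕ} (h1 : y ∈ gv P s t x)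
    (h2 : y ∈ gv P s t' x) : False := by
  obtain ⟨_, _, h3, h4, _⟩ := give_spec hG h2
  have h5 := crit_back hG hI (Nat.succ_le_of_lt h) h3 (by omega)
  rw [Nat.succ_eq_add_one, gs_succ, step_inn] at h5
  rcases (mem_inn1 hG).1 h5 with h6 | h6
  · exact h6.2 h1
  · have := (give_spec hG h6).2.2.2.1
    omega

theorem give_disj {t t' : ℕ} (h : t ≠ t') (x : ℕ) : Disjoint (gv P s t x) (gv P s t' x) := by
  rw [Finset.disjoint_left]
  intro y h1 h2
  rcases lt_or_gt_of_ne h with h3 | h3
  · exact give_disj_lt hG hI h3 h1 h2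
  · exact give_disj_lt hG hI h3 h2 h1

theorem recv_disj {t t' : ℕ} (h : t ≠ t') (y : ℕ) : Disjoint (rv P s t y) (rv P s t' y) := by
  rw [Finset.disjoint_left]
  intro x h1 h2
  exact Finset.disjoint_left.1 (give_disj hG hI h x) ((mem_recv hG).1 h1) ((mem_recv hG).1 h2)

theorem gives_of_drop {t v : ℕ} (h : (gs P s t).act v) (h' : ¬ (gs P s (t + 1)).act v) :
    (gv P s t v).Nonempty := by
  by_contra hne
  rw [Finset.not_nonempty_iff_eq_empty] at hne
  have h1 := card_inn1_act hG (inv_gs hG hI t) (c := t % P.q) h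
  have h2 := (inv_gs hG hI t).up v h
  have h3 : (give P (gs P s t) (t % P.q) v).card = 0 := by
    rw [Finset.card_eq_zero]; exact hne
  apply h'
  rw [gs_succ, step_act, if_pos h]
  omega

theorem recv_of_rise {t v : ℕ} (h : ¬ (gs P s t).act v) (h' : (gs P s (t + 1)).act v) :
    (rv P s t v).Nonempty := by
  by_contra hne
  rw [Finset.not_nonempty_iff_eq_empty] at hne
  have h1 := card_inn1_pass hG (inv_gs hG hI t) (c := t % P.q) h
  have h2 := (inv_gs hG hI t).lo v h
  have h3 : (recv P (gs P s t) (t % P.q) v).card = 0 := by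
    rw [Finset.card_eq_zero]; exact hne
  rw [gs_succ, step_act, if_neg h] at h'
  omega

/-- If nobody receives in slot `t` then the state does not change. -/
theorem persist {t : ℕ} (h : ∀ y, ¬ (rv P s t y).Nonempty) (v : ℕ) :
    (gs P s (t + 1)).inn v = (gs P s t).inn v ∧
      ((gs P s (t + 1)).act v ↔ (gs P s t).act v) := by
  have hr : ∀ y, recv P (gs P s t) (t % P.q) y = ∅ := fun y =>
    Finset.not_nonempty_iff_eq_empty.1 (h y)
  have hg : ∀ x, give P (gs P s t) (t % P.q) x = ∅ := by
    intro x
    rw [Finset.eq_empty_iff_forall_notMem]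
    intro y hy
    have h1 := (mem_recv hG).2 hy
    rw [hr] at h1
    exact absurd h1 (Finset.notMem_empty _)
  have hinn : inn1 P (gs P s t) (t % P.q) v = (gs P s t).inn v := by
    unfold inn1
    rw [hr, hg, Finset.sdiff_empty, Finset.union_empty]
  refine ⟨by rw [gs_succ, step_inn, hinn], ?_⟩
  rw [gs_succ, step_act, hinn]
  by_cases ha : (gs P s t).act v
  · rw [if_pos ha]
    exact ⟨fun _ => ha, fun _ => (inv_gs hG hI t).up v ha⟩
  · rw [if_neg ha]
    have h1 := (inv_gs hG hI t).lo v ha
    constructor
    · intro h2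
      omega
    · intro h2
      exact absurd h2 ha

/-- The cardinalities. -/
theorem card_act {t v : ℕ} (h : (gs P s t).act v) :
    ((gs P s (t + 1)).inn v).card + (gv P s t v).card = ((gs P s t).inn v).card ∧
      rv P s t v = ∅ := by
  refine ⟨?_, recv_empty hG h⟩
  rw [gs_succ, step_inn]
  exact card_inn1_act hG (inv_gs hG hI t) h

theorem card_pass {t v : ℕ} (h : ¬ (gs P s t).act v) :
    ((gs P s (t + 1)).inn v).card = ((gs P s t).inn v).card + (rv P s t v).card ∧
      gv P s t v = ∅ := by
  refine ⟨?_, give_empty hG h⟩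
  rw [gs_succ, step_inn]
  exact card_inn1_pass hG (inv_gs hG hI t) h

end

end HEO71
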