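import Mathlib
import Pool.Agent.HEO71.Run

/-!
# The chain argument

`M` bounds the number of hot slots of every pair (hypothesis `hM`).

`tb`: if `v` gives in slot `X` then `v` is active in at most `b v * M` of the slots `≤ X`.  Induction
on `k = b v`.  Let `y ∈ gv X v`: `b v = b y + 1`, `y ∈ inn_X v`, `y` is passive at `X`, `v` is active.
By `crit_back` `y ∈ inn_t v` for all `t ≤ X`; so for each `t ≤ X` with `v` active, `(v, y)` is hot at
`t` or `y` is active at `t`.  The first happens at most `M` times.  The slots `t ≤ X` at which `y` is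
active: as `y` is passive at `X`, this is `tb_passive` for `y` (inductively).
`tb_passive` (from `tb` for the same node): if `v` is passive at `X`, and active at some slot `< X`, let
`X' < X` be the last such slot; `v` is passive at `X' + 1`, so `v` gives at `X'` (`gives_of_drop`) and
the slots `≤ X` at which `v` is active are the slots `≤ X'` at which `v` is active.
(One can prove both together: `tb_passive` for base `k` follows from `tb` for base `k`.)

`chain`: induction on `m`.  Let `x ∈ rv s' v`: `v ∈ gv s' x`, so `b x = b v + 1`, `v ∈ inn x` at `s'`,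
`x` is active and `v` is passive at `s'`; `v ∈ inn_t x` for all `t ≤ s'` (`crit_back`).  `m = 0` is
impossible: `d ≤ b v < b x ≤ card (inn x) ≤ d`.  For `m + 1`: if `x` is active at all `t ≤ s'` take
`U = {(x, v)}`: at each `t ≤ s'` either `v` is active or `(x, v)` is hot.  Otherwise let `a' < s'` be
the last slot at which `x` is passive; `x` is active at `a' + 1`, so `x` receives in slot `a'`
(`recv_of_rise`); the induction hypothesis for `(x, a')` gives `U'` with at most `m` pairs
(`d - b x ≤ m`); take `U = insert (x, v) U'`: for `t ≤ a'`: some pair of `U'` is hot, or `x` is active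
and then `v` is active or `(x, v)` is hot; for `a' < t ≤ s'`: `x` is active, the same.
`recv_lt`: with `m = d - b v`: `s' + 1 ≤ U.card * M + #{t ≤ s' : v active}` and the last is at most
`b v * M` by `tb_passive` (`v` is passive at `s'`); `(d - b v) * M + b v * M = d * M`.
-/

namespace HEO71

open Classical

section

variable {P : Par} {d D : ℕ} (hG : Good P d D) {s : GS} (hI : Inv P s) {M : ℕ}
  (hM : ∀ T x y, ((Finset.range T).filter (fun t => hot P (gs P s t) x y)).card ≤ M)

include hG hI hM

omit hM in
/-- `tb_passive` for `v` from `tb` for `v`. -/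
private theorem tb_pass_of {v : ℕ} {B : ℕ} (htb : ∀ X, (gv P s X v).Nonempty →
    ((Finset.range (X + 1)).filter (fun t => (gs P s t).act v)).card ≤ B) {X : ℕ}
    (h : ¬ (gs P s X).act v) :
    ((Finset.range (X + 1)).filter (fun t => (gs P s t).act v)).card ≤ B := by
  induction X with
  | zero =>
    have h0 : (Finset.range (0 + 1)).filter (fun t => (gs P s t).act v) = ∅ := by
      rw [Finset.filter_eq_empty_iff]
      intro t ht
      rw [Finset.mem_range] at ht
      obtain rfl : t = 0 := by omega
      exact h
    rw [h0]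
    simp
  | succ X ih =>
    have h1 : (Finset.range (X + 1 + 1)).filter (fun t => (gs P s t).act v) =
        (Finset.range (X + 1)).filter (fun t => (gs P s t).act v) := by
      rw [Finset.range_add_one, Finset.filter_insert, if_neg h]
    rw [h1]
    by_cases hX : (gs P s X).act v
    · exact htb X (gives_of_drop hG hI hX h)
    · exact ih hX

theorem tb (k : ℕ) : ∀ v X, P.b v = k → (gv P s X v).Nonempty →
    ((Finset.range (X + 1)).filter (fun t => (gs P s t).act v)).card ≤ k * M := by
  induction k with
  | zero =>
    intro v X hv hne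
    obtain ⟨y, hy⟩ := hne
    have h1 := (give_spec hG hy).2.2.2.1
    omega
  | succ k ih =>
    intro v X hv hne
    obtain ⟨y, hy⟩ := hne
    obtain ⟨-, -, hin, hb, -, hpass, -⟩ := give_spec hG hy
    have hby : P.b y = k := by omega
    have h1 : ((Finset.range (X + 1)).filter (fun t => (gs P s t).act y)).card ≤ k * M :=
      tb_pass_of hG hI (fun X' hX' => ih y X' hby hX') hpass
    have h2 := hM (X + 1) v y
    have h3 : (Finset.range (X + 1)).filter (fun t => (gs P s t).act v) ⊆
        (Finset.range (X + 1)).filter (fun t => hot P (gs P s t) v y) ∪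
          (Finset.range (X + 1)).filter (fun t => (gs P s t).act y) := by
      intro t ht
      rw [Finset.mem_filter] at ht
      rw [Finset.mem_union, Finset.mem_filter, Finset.mem_filter]
      by_cases h4 : (gs P s t).act y
      · exact Or.inr ⟨ht.1, h4⟩
      · refine Or.inl ⟨ht.1, ?_, hb, ht.2, h4⟩
        exact crit_back hG hI (by have := Finset.mem_range.1 ht.1; omega) hin (by omega)
    have h4 := (Finset.card_le_card h3).trans (Finset.card_union_le _ _)
    rw [Nat.add_mul, Nat.one_mul]
    omega

theorem tb_passive {v X : ℕ} (h : ¬ (gs P s X).act v) :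
    ((Finset.range (X + 1)).filter (fun t => (gs P s t).act v)).card ≤ P.b v * M :=
  tb_pass_of hG hI (fun X' hX' => tb hG hI hM (P.b v) v X' rfl hX') h

omit hM in
theorem chain (m : ℕ) : ∀ v s', d - P.b v ≤ m → (rv P s s' v).Nonempty →
    ∃ U : Finset (ℕ × ℕ), U.card ≤ m ∧
      ∀ t ≤ s', (∃ p ∈ U, hot P (gs P s t) p.1 p.2) ∨ (gs P s t).act v := by
  induction m with
  | zero =>
    intro v s' hv hne
    obtain ⟨x, hx⟩ := hne
    obtain ⟨-, -, hin, hb, -, -, -⟩ := give_spec hG ((mem_recv hG).1 hx)
    have hIs := inv_gs hG hI s'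
    have h1 := hIs.ble x
    have h2 := Finset.card_le_card (hIs.sub x)
    have h3 := hG.deg x
    omega
  | succ m ih =>
    intro v s' hv hne
    obtain ⟨x, hx⟩ := hne
    obtain ⟨-, -, hin, hb, hax, hpass, -⟩ := give_spec hG ((mem_recv hG).1 hx)
    have hback : ∀ t ≤ s', v ∈ (gs P s t).inn x := fun t ht =>
      crit_back hG hI ht hin (by omega)
    have hkey : ∀ t ≤ s', (gs P s t).act x → hot P (gs P s t) x v ∨ (gs P s t).act v := by
      intro t ht hat
      by_cases h4 : (gs P s t).act v
      · exact Or.inr h4
      · exact Or.inl ⟨hback t ht, hb, hat, h4⟩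
    by_cases hall : ∀ t ≤ s', (gs P s t).act x
    · refine ⟨{(x, v)}, by simp, ?_⟩
      intro t ht
      rcases hkey t ht (hall t ht) with h5 | h5
      · exact Or.inl ⟨(x, v), by simp, h5⟩
      · exact Or.inr h5
    · push Not at hall
      -- the last slot at which `x` is passive
      obtain ⟨a, ha1, ha2, ha3⟩ : ∃ a, a ≤ s' ∧ ¬ (gs P s a).act x ∧
          ∀ t, a < t → t ≤ s' → (gs P s t).act x := by
        obtain ⟨a0, ha0, ha0'⟩ := hall
        have hne2 : ((Finset.range (s' + 1)).filter (fun t => ¬ (gs P s t).act x)).Nonempty :=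
          ⟨a0, Finset.mem_filter.2 ⟨Finset.mem_range.2 (by omega), ha0'⟩⟩
        obtain ⟨a, ha, hmax⟩ := Finset.exists_max_image _ (fun t => t) hne2
        rw [Finset.mem_filter, Finset.mem_range] at ha
        refine ⟨a, by omega, ha.2, ?_⟩
        intro t hat hts
        by_contra hcon
        have := hmax t (Finset.mem_filter.2 ⟨Finset.mem_range.2 (by omega), hcon⟩)
        omega
      have hne3 : a ≠ s' := by
        rintro rfl
        exact ha2 hax
      have hr : (rv P s a x).Nonempty :=
        recv_of_rise hG hI ha2 (ha3 (a + 1) (by omega) (by omega))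
      obtain ⟨U', hU1, hU2⟩ := ih x a (by omega) hr
      refine ⟨insert (x, v) U', (Finset.card_insert_le _ _).trans (by omega), ?_⟩
      intro t ht
      by_cases hta : t ≤ a
      · rcases hU2 t hta with ⟨p, hp, hp2⟩ | h5
        · exact Or.inl ⟨p, Finset.mem_insert_of_mem hp, hp2⟩
        · rcases hkey t ht h5 with h6 | h6
          · exact Or.inl ⟨(x, v), Finset.mem_insert_self _ _, h6⟩
          · exact Or.inr h6
      · rcases hkey t ht (ha3 t (by omega) ht) with h6 | h6
        · exact Or.inl ⟨(x, v), Finset.mem_insert_self _ _, h6⟩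
        · exact Or.inr h6

theorem recv_lt {s' v : ℕ} (h : (rv P s s' v).Nonempty) : s' < d * M := by
  obtain ⟨U, hU1, hU2⟩ := chain hG hI (d - P.b v) v s' le_rfl h
  obtain ⟨x, hx⟩ := h
  obtain ⟨-, -, -, -, -, hpass, -⟩ := give_spec hG ((mem_recv hG).1 hx)
  have h1 := tb_passive hG hI hM hpass
  have h2 : Finset.range (s' + 1) ⊆
      (U.biUnion fun p => (Finset.range (s' + 1)).filter (fun t => hot P (gs P s t) p.1 p.2)) ∪
        (Finset.range (s' + 1)).filter (fun t => (gs P s t).act v) := by
    intro t ht
    rw [Finset.mem_union, Finset.mem_biUnion, Finset.mem_filter]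
    rcases hU2 t (by have := Finset.mem_range.1 ht; omega) with ⟨p, hp, hp2⟩ | h5
    · exact Or.inl ⟨p, hp, Finset.mem_filter.2 ⟨ht, hp2⟩⟩
    · exact Or.inr ⟨ht, h5⟩
  have h3 := (Finset.card_le_card h2).trans (Finset.card_union_le _ _)
  have h4 : (U.biUnion fun p => (Finset.range (s' + 1)).filter
      (fun t => hot P (gs P s t) p.1 p.2)).card ≤ U.card * M :=
    Finset.card_biUnion_le_card_mul _ _ _ (fun p _ => hM _ _ _)
  have h5 : U.card * M ≤ (d - P.b v) * M := Nat.mul_le_mul_right _ hU1
  have hIs := inv_gs hG hI s'
  have h6 : P.b v ≤ d := (hIs.ble v).trans ((Finset.card_le_card (hIs.sub v)).trans (hG.deg v))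
  have h7 : (d - P.b v) * M + P.b v * M = d * M := by
    rw [← Nat.add_mul, Nat.sub_add_cancel h6]
  rw [Finset.card_range] at h3
  omega

end

end HEO71
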