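import Mathlib
import Pool.Agent.HEO71.Run

/-!
# Counting the edges given and received

Proofs.  The sets `gv t x` (for different `t`) are pairwise disjoint (`give_disj`), and are subsets of
`N x` (`give_spec`), so the sum of their cardinalities is the cardinality of the union
(`Finset.card_biUnion`), at most `(N x).card ≤ d`.  Class version: for `t % q = c` every
`y ∈ gv t x` has `kc y x = c`, so `kc x y = c` by `comm`, and the union lies in
`(N x).filter (fun w => kc x w = c)`, of cardinality at most `D`.
`exc_le`: induction on `t`: an active node only loses in-neighbours (`card_act`); a passive node has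
at most `b v + 2 u - 2` in-neighbours (`lo`) and receives at most `u` (`recv_card_le`).
-/

namespace HEO71

open Classical

section

variable {P : Par} {d D : ℕ} (hG : Good P d D) {s : GS} (hI : Inv P s)

include hG hI

theorem sum_give (T x : ℕ) : ∑ t ∈ Finset.range T, (gv P s t x).card ≤ d := by
  have h1 : ((Finset.range T).biUnion (fun t => gv P s t x)).card =
      ∑ t ∈ Finset.range T, (gv P s t x).card :=
    Finset.card_biUnion fun t _ t' _ h => give_disj hG hI h x
  rw [← h1]
  refine (Finset.card_le_card ?_).trans (hG.deg x)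
  intro y hy
  obtain ⟨t, _, ht⟩ := Finset.mem_biUnion.1 hy
  exact (give_spec hG ht).1

theorem sum_give_class (T x c : ℕ) (hc : c < P.q) :
    ∑ t ∈ (Finset.range T).filter (fun t => t % P.q = c), (gv P s t x).card ≤ D := by
  have h1 : (((Finset.range T).filter (fun t => t % P.q = c)).biUnion
      (fun t => gv P s t x)).card =
      ∑ t ∈ (Finset.range T).filter (fun t => t % P.q = c), (gv P s t x).card :=
    Finset.card_biUnion fun t _ t' _ h => give_disj hG hI h x
  rw [← h1]
  refine (Finset.card_le_card ?_).trans (hG.cls x c hc)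
  intro y hy
  obtain ⟨t, ht, hty⟩ := Finset.mem_biUnion.1 hy
  have h2 := (Finset.mem_filter.1 ht).2
  obtain ⟨h3, _, _, _, _, _, h4⟩ := give_spec hG hty
  rw [Finset.mem_filter]
  refine ⟨h3, ?_⟩
  rw [hG.comm x y h3, h4, h2]

theorem sum_recv (T y : ℕ) : ∑ t ∈ Finset.range T, (rv P s t y).card ≤ d := by
  have h1 : ((Finset.range T).biUnion (fun t => rv P s t y)).card =
      ∑ t ∈ Finset.range T, (rv P s t y).card :=
    Finset.card_biUnion fun t _ t' _ h => recv_disj hG hI h y
  rw [← h1]
  refine (Finset.card_le_card ?_).trans (hG.deg y)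
  intro x hx
  obtain ⟨t, _, ht⟩ := Finset.mem_biUnion.1 hx
  exact (give_spec hG ((mem_recv hG).1 ht)).2.1

theorem exc_le {E : ℕ} (hE : 3 * P.u ≤ E + 2) (h0 : ∀ v, (s.inn v).card ≤ P.b v + E) (t v : ℕ) :
    ((gs P s t).inn v).card ≤ P.b v + E := by
  induction t with
  | zero => exact h0 v
  | succ t ih =>
    by_cases h : (gs P s t).act v
    · have h1 := (card_act hG hI h).1
      omega
    · have h1 := (card_pass hG hI h).1
      have h2 := (inv_gs hG hI t).lo v h
      have h3 : (rv P s t v).card ≤ P.u := recv_card_le hG v
      omega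

end

end HEO71
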