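import Mathlib
import Pool.Agent.HEO71.Count

/-!
# The hot slots of the class of a pair in which the pair is not used

Let `c = kc y x` (assume `x ∈ N y`, otherwise the set is empty since `y ∈ inn x ⊆ N x`), and let `t` be
in the set `A` of the statement.  Then `x ∈ par y` and `y` is passive.
(A) If `x ∈ ask y` then `(gv t x).card = u` by `not_given_A`.
(B) If `x ∉ ask y` then `(ask y).card = u` by `not_asked_B`; every `x' ∈ ask y` lies in `rv t y` or
has `(gv t x').card = u` (`not_given_A`); so `u ≤ (rv t y).card + #{x' ∈ ask y : (gv t x').card = u}`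
and `u * u ≤ u * (rv t y).card + ∑ x' ∈ ask y, (gv t x').card`, and `ask y ⊆ par y ⊆
(N y).filter (fun x' => kc y x' = c)`.
In both cases `u * u ≤ u * (gv t x).card + u * (rv t y).card + ∑ x' ∈ F, (gv t x').card` with
`F = (N y).filter (fun x' => kc y x' = c)`.  Sum over `t ∈ A`: the first sum is at most `u * d`
(`sum_give`), the second at most `u * d` (`sum_recv`), the third, after exchanging the sums, at most
`F.card * D ≤ D * D` (`sum_give_class`, as all `t ∈ A` satisfy `t % q = c`).
`hot_used`: two different slots `t < t'` of the set would give `y ∈ gv t x ∩ gv t' x`,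
contradicting `give_disj`.
-/

namespace HEO71

open Classical

section

variable {P : Par} {d D : ℕ} (hG : Good P d D) {s : GS} (hI : Inv P s)

include hG hI

theorem hot_one {t x y : ℕ} (hc : t % P.q = P.kc y x) (hh : hot P (gs P s t) x y)
    (hn : y ∉ gv P s t x) :
    P.u * P.u ≤ P.u * (gv P s t x).card + P.u * (rv P s t y).card +
      ∑ x' ∈ (P.N y).filter (fun x' => P.kc y x' = P.kc y x), (gv P s t x').card := by
  obtain ⟨hyx, hb, hax, hay⟩ := hh
  have hIt := inv_gs hG hI t
  have hyN : y ∈ P.N x := hIt.sub x hyx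
  have hxN : x ∈ P.N y := hG.symm _ _ hyN
  have hpar : x ∈ par P (gs P s t) (t % P.q) y := by
    unfold par
    rw [Finset.mem_filter]
    exact ⟨hxN, hyx, hb, hax, hc.symm⟩
  by_cases hA : x ∈ ask P (gs P s t) (t % P.q) y
  · have h1 : (gv P s t x).card = P.u := not_given_A hG hA hn
    rw [h1]
    omega
  · have h2 : (ask P (gs P s t) (t % P.q) y).card = P.u := not_asked_B hpar hay hA
    set K := ask P (gs P s t) (t % P.q) y with hK
    have hKsub : K ⊆ (P.N y).filter (fun x' => P.kc y x' = P.kc y x) := by
      intro x' hx'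
      have h3 : x' ∈ par P (gs P s t) (t % P.q) y := by
        rw [hK] at hx'
        unfold ask at hx'
        rw [if_neg hay] at hx'
        exact tk_sub _ _ hx'
      unfold par at h3
      rw [Finset.mem_filter] at h3 ⊢
      exact ⟨h3.1, h3.2.2.2.2.trans hc⟩
    have h4 : ∀ x' ∈ K, x' ∉ rv P s t y → (gv P s t x').card = P.u := by
      intro x' hx' hx2
      refine not_given_A hG (s := gs P s t) (c := t % P.q) (y := y) ?_ ?_
      · exact hx'
      · intro h5
        exact hx2 ((mem_recv hG).2 h5)
    have h5 : K.card ≤ (rv P s t y).card + (K.filter (fun x' => x' ∉ rv P s t y)).card := by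
      have h6 : K ⊆ rv P s t y ∪ K.filter (fun x' => x' ∉ rv P s t y) := by
        intro x' hx'
        rw [Finset.mem_union, Finset.mem_filter]
        by_cases h7 : x' ∈ rv P s t y
        · exact Or.inl h7
        · exact Or.inr ⟨hx', h7⟩
      exact (Finset.card_le_card h6).trans (Finset.card_union_le _ _)
    have h8 : P.u * (K.filter (fun x' => x' ∉ rv P s t y)).card ≤
        ∑ x' ∈ (P.N y).filter (fun x' => P.kc y x' = P.kc y x), (gv P s t x').card := by
      calc P.u * (K.filter (fun x' => x' ∉ rv P s t y)).card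
          = ∑ x' ∈ K.filter (fun x' => x' ∉ rv P s t y), (gv P s t x').card := by
            rw [Finset.sum_congr rfl (fun x' hx' => h4 x' (Finset.mem_filter.1 hx').1
              (Finset.mem_filter.1 hx').2), Finset.sum_const, smul_eq_mul, mul_comm]
        _ ≤ _ := Finset.sum_le_sum_of_subset ((Finset.filter_subset _ _).trans hKsub)
    rw [h2] at h5
    have h9 := Nat.mul_le_mul_left P.u h5
    rw [Nat.mul_add] at h9
    omega

theorem hot_class (T x y : ℕ) :
    P.u * P.u * ((Finset.range T).filter (fun t => t % P.q = P.kc y x ∧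
      hot P (gs P s t) x y ∧ y ∉ gv P s t x)).card ≤ 2 * P.u * d + D * D := by
  set A := (Finset.range T).filter (fun t => t % P.q = P.kc y x ∧
      hot P (gs P s t) x y ∧ y ∉ gv P s t x) with hA
  by_cases hAe : A = ∅
  · rw [hAe]
    simp
  obtain ⟨t0, ht0⟩ := Finset.nonempty_iff_ne_empty.2 hAe
  have hkq : P.kc y x < P.q := by
    rw [hA, Finset.mem_filter] at ht0
    rw [← ht0.2.1]
    exact Nat.mod_lt _ hG.qpos
  set F := (P.N y).filter (fun x' => P.kc y x' = P.kc y x) with hF
  have hFc : F.card ≤ D := hG.cls y _ hkq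
  have h1 : ∀ t ∈ A, P.u * P.u ≤ P.u * (gv P s t x).card + P.u * (rv P s t y).card +
      ∑ x' ∈ F, (gv P s t x').card := by
    intro t ht
    rw [hA, Finset.mem_filter] at ht
    exact hot_one hG hI ht.2.1 ht.2.2.1 ht.2.2.2
  have h2 := Finset.sum_le_sum h1
  rw [Finset.sum_const, smul_eq_mul, Finset.sum_add_distrib, Finset.sum_add_distrib,
    ← Finset.mul_sum, ← Finset.mul_sum, Finset.sum_comm] at h2
  have hsub : A ⊆ Finset.range T := Finset.filter_subset _ _
  have h3 : ∑ t ∈ A, (gv P s t x).card ≤ d :=
    (Finset.sum_le_sum_of_subset hsub).trans (sum_give hG hI T x)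
  have h4 : ∑ t ∈ A, (rv P s t y).card ≤ d :=
    (Finset.sum_le_sum_of_subset hsub).trans (sum_recv hG hI T y)
  have h5 : ∑ x' ∈ F, ∑ t ∈ A, (gv P s t x').card ≤ D * D := by
    calc ∑ x' ∈ F, ∑ t ∈ A, (gv P s t x').card ≤ ∑ x' ∈ F, D := by
          apply Finset.sum_le_sum
          intro x' _
          refine (Finset.sum_le_sum_of_subset ?_).trans (sum_give_class hG hI T x' _ hkq)
          intro t ht
          rw [hA, Finset.mem_filter] at ht
          rw [Finset.mem_filter]
          exact ⟨ht.1, ht.2.1⟩
      _ = F.card * D := by rw [Finset.sum_const, smul_eq_mul]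
      _ ≤ D * D := Nat.mul_le_mul_right _ hFc
  have h6 := Nat.mul_le_mul_left P.u h3
  have h7 := Nat.mul_le_mul_left P.u h4
  have h8 : P.u * P.u * A.card = A.card * (P.u * P.u) := Nat.mul_comm _ _
  have h9 : 2 * P.u * d = P.u * d + P.u * d := by ring
  rw [h8, h9]
  omega

theorem hot_used (T x y : ℕ) :
    ((Finset.range T).filter (fun t => y ∈ gv P s t x)).card ≤ 1 := by
  rw [Finset.card_le_one]
  intro t ht t' ht'
  rw [Finset.mem_filter] at ht ht'
  by_contra hne
  exact Finset.disjoint_left.1 (give_disj hG hI hne x) ht.2 ht'.2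

end

end HEO71
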