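import Mathlib
import Pool.Agent.HEO71.Count

/-!
# The number of changes of status of a node

Let `E_T` be the sum of `(rv P s t v).card` over `t < T`.  By induction on `T`:
* if `v` is active at `T` then `u * tr T ≤ 2 * E_T + 2 * u`;
* if `v` is passive at `T` then `u * tr T + 2 * (card (inn_T v) + 1 - (b v + u)) ≤ 2 * E_T + 3 * u`
  (natural subtraction: `e - (u - 1)`, truncated, where `e = card - b`).
Initial: `tr = 0`, and `card + 2 ≤ b + 2 u` for a passive node (`lo`).
Step active to active: nothing is received (`card_act`), `tr` is unchanged.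
Active to passive: `tr` grows by one and the new excess is at most `u - 1` (definition of the new
`act`, `step_act`), so the truncated difference is zero.
Passive to passive: `card` grows by `(rv t v).card` (`card_pass`).
Passive to active: the new excess is at least `2 u - 1`: `b + 2 u ≤ card' + 1`,
`card' = card + r`; so `2 * (card + 1 - (b + u)) + 2 * r ≥ 2 * u` and
`u * (tr + 1) ≤ 2 * E + 4 * u - 2 * (card + 1 - (b + u)) ≤ 2 * (E + r) + 2 * u`.
At the end use `sum_recv`.
-/

namespace HEO71

open Classical

/-- The number of changes of status of `v` before `T`. -/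
noncomputable def tr (P : Par) (s : GS) (v T : ℕ) : ℕ :=
  ((Finset.range T).filter (fun t => ¬ ((gs P s t).act v ↔ (gs P s (t + 1)).act v))).card

private theorem tr_succ (P : Par) (s : GS) (v T : ℕ) : tr P s v (T + 1) =
    tr P s v T + if ¬ ((gs P s T).act v ↔ (gs P s (T + 1)).act v) then 1 else 0 := by
  unfold tr
  rw [Finset.range_add_one, Finset.filter_insert]
  split_ifs with h
  · rfl
  · rw [Finset.card_insert_of_notMem]
    intro hm
    exact absurd (Finset.mem_range.1 (Finset.mem_filter.1 hm).1) (lt_irrefl _)

section

variable {P : Par} {d D : ℕ} (hG : Good P d D) {s : GS} (hI : Inv P s)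

include hG hI

theorem tr_inv (v T : ℕ) :
    ((gs P s T).act v → P.u * tr P s v T ≤
      2 * (∑ t ∈ Finset.range T, (rv P s t v).card) + 2 * P.u) ∧
    (¬ (gs P s T).act v → P.u * tr P s v T +
      2 * (((gs P s T).inn v).card + 1 - (P.b v + P.u)) ≤
      2 * (∑ t ∈ Finset.range T, (rv P s t v).card) + 3 * P.u) := by
  induction T with
  | zero =>
    have h0 : tr P s v 0 = 0 := by simp [tr]
    rw [h0, Finset.sum_range_zero]
    constructor
    · intro _
      omega
    · intro h
      have hlo : (s.inn v).card + 2 ≤ P.b v + 2 * P.u := hI.lo v h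
      have hg : gs P s 0 = s := rfl
      rw [hg]
      have hu := hG.upos
      omega
  | succ T ih =>
    rw [Finset.sum_range_succ, tr_succ]
    by_cases ha : (gs P s T).act v
    · obtain ⟨h1, h2⟩ := card_act hG hI ha
      have ih1 := ih.1 ha
      rw [h2, Finset.card_empty]
      by_cases hb : (gs P s (T + 1)).act v
      · refine ⟨fun _ => ?_, fun h => absurd hb h⟩
        rw [if_neg (by simp [ha, hb])]
        simpa using ih1
      · refine ⟨fun h => absurd h hb, fun _ => ?_⟩
        rw [if_pos (by simp [ha, hb]), Nat.mul_add, Nat.mul_one]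
        have hb' := hb
        rw [gs_succ, step_act, if_pos ha, ← step_inn, ← gs_succ] at hb'
        omega
    · obtain ⟨h1, h2⟩ := card_pass hG hI ha
      have ih1 := ih.2 ha
      by_cases hb : (gs P s (T + 1)).act v
      · refine ⟨fun _ => ?_, fun h => absurd hb h⟩
        rw [if_pos (by simp [ha, hb]), Nat.mul_add, Nat.mul_one]
        have hb' := hb
        rw [gs_succ, step_act, if_neg ha, ← step_inn, ← gs_succ] at hb'
        omega
      · refine ⟨fun h => absurd h hb, fun _ => ?_⟩
        rw [if_neg (by simp [ha, hb]), Nat.add_zero]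
        omega

theorem tr_le (v T : ℕ) : P.u * tr P s v T ≤ 2 * d + 3 * P.u := by
  have h1 := sum_recv hG hI T v
  have h2 := tr_inv hG hI v T
  by_cases ha : (gs P s T).act v
  · have := h2.1 ha
    omega
  · have := h2.2 ha
    omega

end

end HEO71
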