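import Mathlib
import Pool.Agent.HEO71.Trans
import Pool.Agent.HEO71.Hot

/-!
# The total time during which a pair is hot

`exists_mod`: elementary.
`hot_event`: let the pair `(x, y)` be hot at `t`.  Let `σ ∈ [t, t + q)` with `σ % q = kc y x`
(`exists_mod`; `kc y x < q` as `x ∈ N y`).  If no slot in `[t, σ)` is a change of status of `x` or
of `y` or a use of the pair (`y ∈ gv x`) then the pair is hot at `σ` (induction on the slots: the
statuses are the same, and `y ∈ inn x` remains since `y ∉ gv x`, by `mem_inn1`).  So some slot of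
`[t, t + q)` is in the set of events `Ev T' = {σ < T' : status change of x} ∪ {... of y} ∪ {use of
the pair} ∪ {σ % q = kc y x, hot, not used}`, for any `T' ≥ t + q`.
`hot_time`: every hot slot `t < T` is `σ - i` with `σ ∈ Ev (T + q)`, `i < q`; so the number of hot
slots is at most `q * |Ev|`, and `u * u * |Ev| ≤ u * (2 d + 3 u) + u * (2 d + 3 u) + u * u +
(2 u d + D D)` by `tr_le`, `hot_used`, `hot_class`.
-/

namespace HEO71

open Classical

theorem exists_mod {q c : ℕ} (hc : c < q) (t : ℕ) : ∃ σ, t ≤ σ ∧ σ < t + q ∧ σ % q = c := by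
  have h1 := Nat.div_add_mod t q
  have h2 := Nat.mod_lt t (by omega : 0 < q)
  by_cases h : t % q ≤ c
  · refine ⟨q * (t / q) + c, by omega, by omega, ?_⟩
    rw [Nat.mul_add_mod, Nat.mod_eq_of_lt hc]
  · refine ⟨q * (t / q + 1) + c, ?_, ?_, ?_⟩
    · rw [mul_add]; omega
    · rw [mul_add]; omega
    · rw [Nat.mul_add_mod, Nat.mod_eq_of_lt hc]

section

variable {P : Par} {d D : ℕ} (hG : Good P d D) {s : GS} (hI : Inv P s)

include hG hI

theorem hot_event {t x y : ℕ} (hh : hot P (gs P s t) x y) : ∃ σ, t ≤ σ ∧ σ < t + P.q ∧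
    ((¬ ((gs P s σ).act x ↔ (gs P s (σ + 1)).act x)) ∨
     (¬ ((gs P s σ).act y ↔ (gs P s (σ + 1)).act y)) ∨
     (y ∈ gv P s σ x) ∨
     (σ % P.q = P.kc y x ∧ hot P (gs P s σ) x y ∧ y ∉ gv P s σ x)) := by
  have hyN : y ∈ P.N x := (inv_gs hG hI t).sub x hh.1
  have hxN : x ∈ P.N y := hG.symm _ _ hyN
  obtain ⟨σ, h1, h2, h3⟩ := exists_mod (hG.lt y x hxN) t
  by_contra hcon
  push Not at hcon
  have key : ∀ j, t + j ≤ σ → hot P (gs P s (t + j)) x y := by
    intro j
    induction j with
    | zero => intro _; exact hh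
    | succ j ih =>
      intro hj
      have h4 := ih (by omega)
      obtain ⟨c1, c2, c3, -⟩ := hcon (t + j) (by omega) (by omega)
      have hIt := inv_gs hG hI (t + j)
      refine ⟨?_, h4.2.1, ?_, ?_⟩
      · have h5 : y ∈ inn1 P (gs P s (t + j)) ((t + j) % P.q) x := by
          rw [mem_inn1 hG]
          exact Or.inl ⟨h4.1, c3⟩
        exact h5
      · exact c1.1 h4.2.2.1
      · intro h5
        exact h4.2.2.2 (c2.2 h5)
  have h4 := key (σ - t) (by omega)
  rw [show t + (σ - t) = σ by omega] at h4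
  obtain ⟨-, -, c3, c4⟩ := hcon σ h1 h2
  exact c3 (c4 h3 h4)

theorem hot_time (T x y : ℕ) :
    P.u * P.u * ((Finset.range T).filter (fun t => hot P (gs P s t) x y)).card ≤
      P.q * (6 * (P.u * d) + 7 * (P.u * P.u) + D * D) := by
  set T' := T + P.q with hT'
  set E1 := (Finset.range T').filter (fun σ => ¬ ((gs P s σ).act x ↔ (gs P s (σ + 1)).act x))
    with hE1
  set E2 := (Finset.range T').filter (fun σ => ¬ ((gs P s σ).act y ↔ (gs P s (σ + 1)).act y))
    with hE2
  set E3 := (Finset.range T').filter (fun σ => y ∈ gv P s σ x) with hE3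
  set E4 := (Finset.range T').filter (fun σ => σ % P.q = P.kc y x ∧
      hot P (gs P s σ) x y ∧ y ∉ gv P s σ x) with hE4
  set Ev := E1 ∪ E2 ∪ E3 ∪ E4 with hEv
  have b1 : P.u * E1.card ≤ 2 * d + 3 * P.u := tr_le hG hI x T'
  have b2 : P.u * E2.card ≤ 2 * d + 3 * P.u := tr_le hG hI y T'
  have b3 : E3.card ≤ 1 := hot_used hG hI T' x y
  have b4 : P.u * P.u * E4.card ≤ 2 * P.u * d + D * D := hot_class hG hI T' x y
  have b5 : Ev.card ≤ E1.card + E2.card + E3.card + E4.card := by
    have c1 : Ev.card ≤ (E1 ∪ E2 ∪ E3).card + E4.card := Finset.card_union_le (E1 ∪ E2 ∪ E3) E4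
    have c2 := Finset.card_union_le (E1 ∪ E2) E3
    have c3 := Finset.card_union_le E1 E2
    omega
  have b6 : P.u * P.u * Ev.card ≤ 6 * (P.u * d) + 7 * (P.u * P.u) + D * D := by
    have d1 := Nat.mul_le_mul_left P.u b1
    have d2 := Nat.mul_le_mul_left P.u b2
    have d3 := Nat.mul_le_mul_left (P.u * P.u) b3
    have d5 := Nat.mul_le_mul_left (P.u * P.u) b5
    nlinarith
  have b7 : ((Finset.range T).filter (fun t => hot P (gs P s t) x y)).card ≤
      P.q * Ev.card := by
    have e1 : (Finset.range T).filter (fun t => hot P (gs P s t) x y) ⊆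
        (Finset.range P.q ×ˢ Ev).image (fun p => p.2 - p.1) := by
      intro t ht
      rw [Finset.mem_filter, Finset.mem_range] at ht
      obtain ⟨σ, h1, h2, h3⟩ := hot_event hG hI ht.2
      rw [Finset.mem_image]
      refine ⟨(σ - t, σ), ?_, by simp only; omega⟩
      rw [Finset.mem_product]
      refine ⟨Finset.mem_range.2 (by simp only; omega), ?_⟩
      simp only
      have hσ : σ ∈ Finset.range T' := Finset.mem_range.2 (by omega)
      rw [hEv, Finset.mem_union, Finset.mem_union, Finset.mem_union]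
      rcases h3 with h3 | h3 | h3 | h3
      · exact Or.inl (Or.inl (Or.inl (Finset.mem_filter.2 ⟨hσ, h3⟩)))
      · exact Or.inl (Or.inl (Or.inr (Finset.mem_filter.2 ⟨hσ, h3⟩)))
      · exact Or.inl (Or.inr (Finset.mem_filter.2 ⟨hσ, h3⟩))
      · exact Or.inr (Finset.mem_filter.2 ⟨hσ, h3⟩)
    refine (Finset.card_le_card e1).trans (Finset.card_image_le.trans ?_)
    rw [Finset.card_product, Finset.card_range]
  calc P.u * P.u * ((Finset.range T).filter (fun t => hot P (gs P s t) x y)).card
      ≤ P.u * P.u * (P.q * Ev.card) := Nat.mul_le_mul_left _ b7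
    _ = P.q * (P.u * P.u * Ev.card) := by ring
    _ ≤ _ := Nat.mul_le_mul_left _ b6

end

end HEO71
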