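import Mathlib
import Pool.Agent.HEO71.HotTime
import Pool.Agent.HEO71.Chain

/-!
# The end of the game

`const_after`: for `t ≥ d * M` nobody receives (`recv_lt`), so by `persist` the state is constant.
`closed`: let `t ≥ d * M`, `y ∈ inn x`, `b y < b x`, `x` active, and suppose that `y` is passive.  By
`lip` `b x = b y + 1`, so `(x, y)` is hot at `t`, and by `const_after` at every later slot.  Take
`σ ∈ [t, t + q)` with `σ % q = kc y x`; then `x ∈ par y` at `σ` and by `exists_give` somebody gives
(hence somebody receives, `mem_recv`) in slot `σ ≥ d * M`, contradiction with `recv_lt`.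
`hot_le`: from `hot_time` and `u ≥ 1`: `u * u * card ≤ u * u * M`.
-/

namespace HEO71

open Classical

section

variable {P : Par} {d D : ℕ} (hG : Good P d D) {s : GS} (hI : Inv P s) {M : ℕ}
  (hM : P.q * (6 * (P.u * d) + 7 * (P.u * P.u) + D * D) ≤ P.u * P.u * M)

include hG hI hM

theorem hot_le (T x y : ℕ) :
    ((Finset.range T).filter (fun t => hot P (gs P s t) x y)).card ≤ M := by
  have h1 := (hot_time hG hI T x y).trans hM
  have h2 : 0 < P.u * P.u := Nat.mul_pos hG.upos hG.upos
  exact Nat.le_of_mul_le_mul_left h1 h2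

theorem const_after {t t' : ℕ} (ht : d * M ≤ t) (htt : t ≤ t') (v : ℕ) :
    (gs P s t').inn v = (gs P s t).inn v ∧ ((gs P s t').act v ↔ (gs P s t).act v) := by
  induction t', htt using Nat.le_induction with
  | base => exact ⟨rfl, Iff.rfl⟩
  | succ n hn ih =>
    have h1 := persist hG hI (t := n) (fun y hy => by
      have := recv_lt hG hI (hot_le hG hI hM) hy
      omega) v
    exact ⟨h1.1.trans ih.1, h1.2.trans ih.2⟩

theorem closed {t x y : ℕ} (ht : d * M ≤ t) (hy : y ∈ (gs P s t).inn x) (hb : P.b y < P.b x)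
    (hx : (gs P s t).act x) : (gs P s t).act y := by
  by_contra hny
  have hinv := inv_gs hG hI t
  have hb1 := hinv.lip x y hy
  have hyN : y ∈ P.N x := hinv.sub x hy
  have hxN : x ∈ P.N y := hG.symm _ _ hyN
  obtain ⟨σ, h1, _, h3⟩ := exists_mod (hG.lt y x hxN) t
  have cx := const_after hG hI hM ht h1 x
  have cy := const_after hG hI hM ht h1 y
  have hpar : x ∈ par P (gs P s σ) (σ % P.q) y := by
    unfold par
    rw [Finset.mem_filter]
    refine ⟨hxN, ?_, by omega, cx.2.2 hx, h3.symm⟩
    rw [cx.1]
    exact hy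
  obtain ⟨x', y', h4⟩ := exists_give hG hpar (fun h => hny (cy.2.1 h))
  have h5 : (rv P s σ y').Nonempty := ⟨x', (mem_recv hG).2 h4⟩
  have h6 := recv_lt hG hI (hot_le hG hI hM) h5
  omega

end

end HEO71
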