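import Mathlib
import Pool.Agent.HEO71.EndG

/-!
# The phases

`phase`: start the game (a node is active iff its excess is at least `2 u - 1`), play `S` slots, then
every active node raises its base by one.
`start_inv`: `up`: `b + 2 u ≤ card + 1` and `u ≥ 1`; `lo`: negation.
`phase_inv`: the game preserves `sub`, `ori`, `ble`, `lip` (`inv_gs`).  New bases: `ble`: an active
node has `b v + u ≤ card`, `u ≥ 1`.  `lip`: let `w ∈ inn v`.  If `v` is passive then
`b' v = b v ≤ b w + 1 ≤ b' w + 1`.  If `v` is active, `b' v = b v + 1`; if `b v ≤ b w` fine; otherwise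
`b w < b v`, `w` is active by `closed`, `b' w + 1 = b w + 2 ≥ b v + 1`.
`phase_exc`: by `exc_le` (with `E + 1`) all excesses during the game are at most `E + 1`; an active
node loses one by raising; a passive node has `card + 2 ≤ b + 2 u` (`lo`), `2 u - 2 ≤ E` follows from
`3 u ≤ E + 3` and `u ≥ 1`.
`phs_spec`: induction on `k` with `phase_inv`, `phase_exc` (`E = 6 u - 4 - k`).
-/

namespace HEO71

open Classical

/-- The states between the phases. -/
structure OS where
  inn : ℕ → Finset ℕ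
  b : ℕ → ℕ

/-- The invariants between the phases. -/
structure OInv (N : ℕ → Finset ℕ) (o : OS) : Prop where
  sub : ∀ v, o.inn v ⊆ N v
  ori : ∀ u v, u ∈ N v → (u ∈ o.inn v ↔ v ∉ o.inn u)
  ble : ∀ v, o.b v ≤ (o.inn v).card
  lip : ∀ v, ∀ w ∈ o.inn v, o.b v ≤ o.b w + 1

/-- The start of the game. -/
def start (u : ℕ) (o : OS) : GS := ⟨o.inn, fun v => o.b v + 2 * u ≤ (o.inn v).card + 1⟩

/-- One phase. -/
noncomputable def phase (N : ℕ → Finset ℕ) (kc : ℕ → ℕ → ℕ) (u q S : ℕ) (o : OS) : OS :=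
  ⟨(gs ⟨N, kc, o.b, u, q⟩ (start u o) S).inn, fun v =>
    if (gs ⟨N, kc, o.b, u, q⟩ (start u o) S).act v then o.b v + 1 else o.b v⟩

/-- Several phases. -/
noncomputable def phs (N : ℕ → Finset ℕ) (kc : ℕ → ℕ → ℕ) (u q S : ℕ) : ℕ → OS → OS
  | 0, o => o
  | k + 1, o => phase N kc u q S (phs N kc u q S k o)

/-- The hypotheses on the graph and the classes. -/
structure GoodK (N : ℕ → Finset ℕ) (kc : ℕ → ℕ → ℕ) (q d D : ℕ) : Prop where
  symm : ∀ u v, u ∈ N v → v ∈ N u
  irr : ∀ v, v ∉ N v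
  deg : ∀ v, (N v).card ≤ d
  cls : ∀ v c, c < q → ((N v).filter (fun w => kc v w = c)).card ≤ D
  comm : ∀ v w, w ∈ N v → kc v w = kc w v
  lt : ∀ v w, w ∈ N v → kc v w < q
  qpos : 0 < q

section

variable {N : ℕ → Finset ℕ} {kc : ℕ → ℕ → ℕ} {q d D u M : ℕ} (hG : GoodK N kc q d D)
  (hu : 1 ≤ u) (hM : q * (6 * (u * d) + 7 * (u * u) + D * D) ≤ u * u * M)

include hG hu

theorem good_of (b : ℕ → ℕ) : Good ⟨N, kc, b, u, q⟩ d D where
  symm := hG.symm
  irr := hG.irr
  deg := hG.deg
  cls := hG.cls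
  comm := hG.comm
  lt := hG.lt
  upos := hu
  qpos := hG.qpos

theorem start_inv {o : OS} (ho : OInv N o) : Inv ⟨N, kc, o.b, u, q⟩ (start u o) where
  sub := ho.sub
  ori := ho.ori
  ble := ho.ble
  lip := ho.lip
  up := fun v hv => by
    have h1 : o.b v + 2 * u ≤ (o.inn v).card + 1 := hv
    change o.b v + u ≤ (o.inn v).card
    omega
  lo := fun v hv => by
    have h1 : ¬ (o.b v + 2 * u ≤ (o.inn v).card + 1) := hv
    change (o.inn v).card + 2 ≤ o.b v + 2 * u
    omega

include hM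

theorem phase_inv {o : OS} (ho : OInv N o) : OInv N (phase N kc u q (d * M) o) := by
  have hGd := good_of (D := D) (d := d) hG hu o.b
  have hI0 := start_inv hG hu ho
  have hI := inv_gs hGd hI0 (d * M)
  refine ⟨hI.sub, hI.ori, fun v => ?_, fun v w hw => ?_⟩
  · have h1 := hI.ble v
    have h2 := hI.up v
    change (if (gs ⟨N, kc, o.b, u, q⟩ (start u o) (d * M)).act v then o.b v + 1 else o.b v) ≤
      ((gs ⟨N, kc, o.b, u, q⟩ (start u o) (d * M)).inn v).card
    change o.b v ≤ _ at h1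
    split_ifs with h
    · have h3 : o.b v + u ≤ _ := h2 h
      omega
    · exact h1
  · change (if (gs ⟨N, kc, o.b, u, q⟩ (start u o) (d * M)).act v then o.b v + 1 else o.b v) ≤
      (if (gs ⟨N, kc, o.b, u, q⟩ (start u o) (d * M)).act w then o.b w + 1 else o.b w) + 1
    have hw' : w ∈ (gs ⟨N, kc, o.b, u, q⟩ (start u o) (d * M)).inn v := hw
    have h1 : o.b v ≤ o.b w + 1 := hI.lip v w hw'
    by_cases hv : (gs ⟨N, kc, o.b, u, q⟩ (start u o) (d * M)).act v
    · rw [if_pos hv]
      by_cases hb : o.b v ≤ o.b w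
      · split_ifs <;> omega
      · have h2 := closed hGd hI0 (M := M) hM le_rfl hw' (by
          change o.b w < o.b v
          omega) hv
        rw [if_pos h2]
        omega
    · rw [if_neg hv]
      split_ifs <;> omega

theorem phase_exc {o : OS} (ho : OInv N o) {E : ℕ} (hE : 3 * u ≤ E + 3)
    (h0 : ∀ v, (o.inn v).card ≤ o.b v + (E + 1)) (v : ℕ) :
    ((phase N kc u q (d * M) o).inn v).card ≤ (phase N kc u q (d * M) o).b v + E := by
  have hGd := good_of (D := D) (d := d) hG hu o.b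
  have hI0 := start_inv hG hu ho
  have hI := inv_gs hGd hI0 (d * M)
  have h1 := exc_le hGd hI0 (E := E + 1) (by
    change 3 * u ≤ E + 1 + 2
    omega) h0 (d * M) v
  have h2 := hI.lo v
  change ((gs ⟨N, kc, o.b, u, q⟩ (start u o) (d * M)).inn v).card ≤
    (if (gs ⟨N, kc, o.b, u, q⟩ (start u o) (d * M)).act v then o.b v + 1 else o.b v) + E
  change _ ≤ o.b v + (E + 1) at h1
  split_ifs with h
  · omega
  · have h3 : ((gs ⟨N, kc, o.b, u, q⟩ (start u o) (d * M)).inn v).card + 2 ≤ o.b v + 2 * u := h2 h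
    omega

theorem phs_spec {o : OS} (ho : OInv N o) (h0 : ∀ v, (o.inn v).card + 3 ≤ o.b v + 6 * u)
    (k : ℕ) (hk : k ≤ 3 * u) : OInv N (phs N kc u q (d * M) k o) ∧
    ∀ v, ((phs N kc u q (d * M) k o).inn v).card + 3 + k ≤
      (phs N kc u q (d * M) k o).b v + 6 * u := by
  induction k with
  | zero => exact ⟨ho, fun v => h0 v⟩
  | succ k ih =>
    obtain ⟨h1, h2⟩ := ih (by omega)
    refine ⟨phase_inv hG hu hM h1, fun v => ?_⟩
    have h3 := phase_exc hG hu hM h1 (E := 6 * u - 4 - k) (by omega) (fun v => by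
      have := h2 v
      omega) v
    change ((phase N kc u q (d * M) (phs N kc u q (d * M) k o)).inn v).card + 3 + (k + 1) ≤
      (phase N kc u q (d * M) (phs N kc u q (d * M) k o)).b v + 6 * u
    omega

end

end HEO71
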