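import Mathlib
import Pool.Agent.HEO71.Phase

/-!
# The stages

Stage `i` has unit `u = 2 ^ i`, uses `q = qq d i` classes with at most `D = 2 * (2 * d / q + 1)` edges
of each class at every node, and consists of `3 * 2 ^ i` phases of `d * MM d i` slots.
`par_bound`: `q = sqrt (d / u) + 1` gives `d / u < q * q` (`Nat.lt_succ_sqrt`), so `d < u * (q * q)`
(`Nat.div_lt_iff_lt_mul`), `2 * d / q ≤ 2 * u * q` (`Nat.div_le_of_le_mul`), and since `u, q ≥ 1`
`D ≤ 2 * (2 * u * q + 1) ≤ 6 * u * q`, `D * D ≤ 36 * (u * u * (q * q))`,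
`6 * (u * d) ≤ 6 * (u * u * (q * q))`, `7 * (u * u) ≤ 7 * (u * u * (q * q))`; total
`49 * (u * u * (q * q))`, times `q`, is `u * u * MM`.
`stg_spec`: induction on `j`; `stg (j + 1) o = stg j (phs ... (3 * 2 ^ j) o)`; `phs_spec` with
`u = 2 ^ j`, `k = 3 * u` gives `card + 3 + 3 * 2 ^ j ≤ b + 6 * 2 ^ j`.
-/

namespace HEO71

open Classical

/-- The number of the classes in stage `i`. -/
def qq (d i : ℕ) : ℕ := Nat.sqrt (d / 2 ^ i) + 1

/-- The bound for the number of hot slots of a pair in a phase of stage `i`. -/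
def MM (d i : ℕ) : ℕ := 49 * (qq d i * qq d i * qq d i)

/-- The stages `j - 1, ..., 0`. -/
noncomputable def stg (N : ℕ → Finset ℕ) (kcs : ℕ → ℕ → ℕ → ℕ) (d : ℕ) : ℕ → OS → OS
  | 0, o => o
  | j + 1, o => stg N kcs d j
      (phs N (kcs (qq d j)) (2 ^ j) (qq d j) (d * MM d j) (3 * 2 ^ j) o)

/-- The number of slots of the stages `j - 1, ..., 0`. -/
def time (d : ℕ) : ℕ → ℕ
  | 0 => 0
  | j + 1 => 3 * 2 ^ j * (d * MM d j) + time d j

theorem par_bound (d i : ℕ) : qq d i * (6 * (2 ^ i * d) + 7 * (2 ^ i * 2 ^ i) +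
    (2 * (2 * d / qq d i + 1)) * (2 * (2 * d / qq d i + 1))) ≤ 2 ^ i * 2 ^ i * MM d i := by
  have hu : 1 ≤ 2 ^ i := Nat.one_le_two_pow
  have hq : 1 ≤ qq d i := by unfold qq; omega
  have h1 : d / 2 ^ i < qq d i * qq d i := by
    unfold qq
    exact Nat.lt_succ_sqrt _
  have h2 : d < qq d i * qq d i * 2 ^ i := (Nat.div_lt_iff_lt_mul (by omega)).1 h1
  unfold MM
  generalize 2 ^ i = u at *
  generalize qq d i = q at *
  have h3 : 2 * d / q ≤ 2 * u * q := by
    apply Nat.div_le_of_le_mul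
    calc 2 * d ≤ 2 * (q * q * u) := by omega
      _ = q * (2 * u * q) := by ring
  have huq : 1 ≤ u * q := Nat.mul_pos hu hq
  have h4 : 2 * (2 * d / q + 1) ≤ 6 * (u * q) := by
    have : 2 * u * q = 2 * (u * q) := by ring
    omega
  have h5 := Nat.mul_le_mul h4 h4
  have h6 : u * d ≤ u * (q * q * u) := Nat.mul_le_mul_left u h2.le
  have h7 : u * u * 1 ≤ u * u * (q * q) := Nat.mul_le_mul_left _ (Nat.mul_pos hq hq)
  have e1 : 6 * (u * q) * (6 * (u * q)) = 36 * (u * u * (q * q)) := by ring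
  have e2 : u * (q * q * u) = u * u * (q * q) := by ring
  rw [e1] at h5
  rw [e2] at h6
  rw [mul_one] at h7
  have h8 : 6 * (u * d) + 7 * (u * u) + (2 * (2 * d / q + 1)) * (2 * (2 * d / q + 1)) ≤
      49 * (u * u * (q * q)) := by omega
  calc q * (6 * (u * d) + 7 * (u * u) + (2 * (2 * d / q + 1)) * (2 * (2 * d / q + 1)))
      ≤ q * (49 * (u * u * (q * q))) := Nat.mul_le_mul_left q h8
    _ = u * u * (49 * (q * q * q)) := by ring

theorem stg_spec {N : ℕ → Finset ℕ} {kcs : ℕ → ℕ → ℕ → ℕ} {d : ℕ}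
    (hG : ∀ q, 0 < q → GoodK N (kcs q) q d (2 * (2 * d / q + 1))) (j : ℕ) :
    ∀ o : OS, OInv N o → (∀ v, (o.inn v).card + 3 ≤ o.b v + 3 * 2 ^ j) →
      OInv N (stg N kcs d j o) ∧
      ∀ v, ((stg N kcs d j o).inn v).card ≤ (stg N kcs d j o).b v := by
  induction j with
  | zero =>
    intro o ho h0
    refine ⟨ho, fun v => ?_⟩
    have := h0 v
    show (o.inn v).card ≤ o.b v
    rw [pow_zero] at this
    omega
  | succ j ih =>
    intro o ho h0
    have hq : 0 < qq d j := by unfold qq; omega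
    have hu : 1 ≤ 2 ^ j := Nat.one_le_two_pow
    obtain ⟨h1, h2⟩ := phs_spec (hG (qq d j) hq) hu (par_bound d j) ho (fun v => by
      have := h0 v
      rw [pow_succ] at this
      omega) (3 * 2 ^ j) le_rfl
    exact ih _ h1 fun v => by
      have := h2 v
      omega

end HEO71
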