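import Mathlib
import Pool.Agent.HEO70.Classes
import Pool.Agent.HEO71.Stage

/-!
# The algorithm runs in three rounds per slot

All as in `Pool/Agent/HEO70/Locality.lean` (which may be copied).
`local_gs`: induction on `t`; one slot takes three rounds: after the first round a node knows its
`ask` (this depends on `N y`, `kc y`, `b y`, `act y`, `inn y` and on `inn x`, `b x`, `act x` for
`x ∈ N y`), after the second its `give` (depends on `N x` and on `ask y`, `y ∈ N x`), after the third
its `recv`, and then its new `inn` and `act`.  Use `HEO70.IsLocal.next` three times, the function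
carried along being the old knowledge together with `ask` (then `give`).
`local_phase`: `start` and the raising of the bases need no communication; for a given `q` the
component `fun q => kap d q (d * d) G v` gives `kap d q (d * d) G v`.
`local_phs`, `local_stg`: induction.
`solvable`: the initial state is `o G = ⟨fun v => (nb G v).filter (fun w => w < v), fun _ => 0⟩`
(local with radius `d * d + 2`, by `HEO70.isLocal_kap` and `HEO70.isLocal_nb`); use
`HEO70.exists_algorithm_of_local` for `fun G v => ↑((stg ... (o G)).inn v)`; `stg_spec` with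
`j = Nat.size d` (`Nat.lt_size_self : d < 2 ^ d.size`, so `card + 3 ≤ 3 * 2 ^ j`); `GoodK` from
`HEO70.class_card`, `kap_comm`, `kap_lt`; happiness: `card (inn v) ≤ b v ≤ b u + 1 ≤
card (inn u) + 1`.
-/

namespace HEO71

open Classical HEO70

private theorem ask_congr {N N' : ℕ → Finset ℕ} {kc kc' : ℕ → ℕ → ℕ} {b b' : ℕ → ℕ} {u q : ℕ}
    {s s' : GS} {c y : ℕ} (h1 : N y = N' y) (h2 : kc y = kc' y) (h3 : b y = b' y)
    (h4 : s.act y = s'.act y)
    (h5 : ∀ x ∈ N y, b x = b' x ∧ s.inn x = s'.inn x ∧ s.act x = s'.act x) :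
    ask ⟨N, kc, b, u, q⟩ s c y = ask ⟨N', kc', b', u, q⟩ s' c y := by
  have hp : par ⟨N, kc, b, u, q⟩ s c y = par ⟨N', kc', b', u, q⟩ s' c y := by
    unfold par
    show (N y).filter _ = (N' y).filter _
    rw [← h1]
    apply Finset.filter_congr
    intro x hx
    obtain ⟨e1, e2, e3⟩ := h5 x hx
    show (y ∈ s.inn x ∧ b x = b y + 1 ∧ s.act x ∧ kc y x = c) ↔
      (y ∈ s'.inn x ∧ b' x = b' y + 1 ∧ s'.act x ∧ kc' y x = c)
    rw [e1, e2, e3, h2, h3]
  unfold ask
  rw [hp]
  show (if s.act y then ∅ else tk u _) = (if s'.act y then ∅ else tk u _)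
  simp only [h4]

private theorem give_congr {N N' : ℕ → Finset ℕ} {kc kc' : ℕ → ℕ → ℕ} {b b' : ℕ → ℕ} {u q : ℕ}
    {s s' : GS} {c x : ℕ} (h1 : N x = N' x)
    (h2 : ∀ y ∈ N x, ask ⟨N, kc, b, u, q⟩ s c y = ask ⟨N', kc', b', u, q⟩ s' c y) :
    give ⟨N, kc, b, u, q⟩ s c x = give ⟨N', kc', b', u, q⟩ s' c x := by
  unfold give
  show tk u ((N x).filter _) = tk u ((N' x).filter _)
  rw [← h1]
  congr 1
  apply Finset.filter_congr
  intro y hy
  rw [h2 y hy]

private theorem inn1_congr' {N N' : ℕ → Finset ℕ} {kc kc' : ℕ → ℕ → ℕ} {b b' : ℕ → ℕ} {u q : ℕ}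
    {s s' : GS} {c v : ℕ} (h1 : N v = N' v) (h2 : s.inn v = s'.inn v)
    (h3 : give ⟨N, kc, b, u, q⟩ s c v = give ⟨N', kc', b', u, q⟩ s' c v)
    (h4 : ∀ w ∈ N v, give ⟨N, kc, b, u, q⟩ s c w = give ⟨N', kc', b', u, q⟩ s' c w) :
    inn1 ⟨N, kc, b, u, q⟩ s c v = inn1 ⟨N', kc', b', u, q⟩ s' c v := by
  unfold inn1 recv
  rw [h2, h3]
  congr 1
  show (N v).filter _ = (N' v).filter _
  rw [← h1]
  apply Finset.filter_congr
  intro w hw
  rw [h4 w hw]

theorem local_gs {r : ℕ} {kc : Network → ℕ → ℕ → ℕ} {b : Network → ℕ → ℕ} {s : Network → GS}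
    (u q : ℕ) (h : IsLocal r (fun G v => (nb G v, kc G v, b G v, (s G).inn v, (s G).act v)))
    (t : ℕ) : IsLocal (r + 3 * t) (fun G v => (nb G v, kc G v, b G v,
      (gs ⟨nb G, kc G, b G, u, q⟩ (s G) t).inn v,
      (gs ⟨nb G, kc G, b G, u, q⟩ (s G) t).act v)) := by
  induction t with
  | zero => exact h
  | succ t ih =>
    -- the questions
    have hask : IsLocal (r + 3 * t + 1) (fun G v => ((nb G v, kc G v, b G v,
        (gs ⟨nb G, kc G, b G, u, q⟩ (s G) t).inn v,
        (gs ⟨nb G, kc G, b G, u, q⟩ (s G) t).act v),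
        ask ⟨nb G, kc G, b G, u, q⟩ (gs ⟨nb G, kc G, b G, u, q⟩ (s G) t) (t % q) v)) := by
      refine ih.next ?_
      intro G G' v hnb hv hu
      have hv' := hv
      simp only [Prod.mk.injEq] at hv'
      obtain ⟨a1, a2, a3, a4, a5⟩ := hv'
      rw [Prod.mk.injEq]
      refine ⟨hv, ?_⟩
      apply ask_congr a1 a2 a3 a5
      intro x hx
      have := hu x hx
      simp only [Prod.mk.injEq] at this
      exact ⟨this.2.2.1, this.2.2.2.1, this.2.2.2.2⟩
    -- the gifts
    have hgv : IsLocal (r + 3 * t + 1 + 1) (fun G v => ((nb G v, kc G v, b G v,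
        (gs ⟨nb G, kc G, b G, u, q⟩ (s G) t).inn v,
        (gs ⟨nb G, kc G, b G, u, q⟩ (s G) t).act v),
        give ⟨nb G, kc G, b G, u, q⟩ (gs ⟨nb G, kc G, b G, u, q⟩ (s G) t) (t % q) v)) := by
      refine hask.next ?_
      intro G G' v hnb hv hu
      rw [Prod.mk.injEq] at hv ⊢
      refine ⟨hv.1, ?_⟩
      apply give_congr hnb
      intro y hy
      have := hu y hy
      rw [Prod.mk.injEq] at this
      exact this.2
    -- the new state
    have hnew : IsLocal (r + 3 * t + 1 + 1 + 1) (fun G v => (nb G v, kc G v, b G v,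
        (gs ⟨nb G, kc G, b G, u, q⟩ (s G) (t + 1)).inn v,
        (gs ⟨nb G, kc G, b G, u, q⟩ (s G) (t + 1)).act v)) := by
      refine hgv.next ?_
      intro G G' v hnb hv hu
      rw [Prod.mk.injEq] at hv
      obtain ⟨hv1, hv2⟩ := hv
      simp only [Prod.mk.injEq] at hv1
      obtain ⟨a1, a2, a3, a4, a5⟩ := hv1
      have hinn : inn1 ⟨nb G, kc G, b G, u, q⟩ (gs ⟨nb G, kc G, b G, u, q⟩ (s G) t) (t % q) v =
          inn1 ⟨nb G', kc G', b G', u, q⟩ (gs ⟨nb G', kc G', b G', u, q⟩ (s G') t)
            (t % q) v := by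
        apply inn1_congr' a1 a4 hv2
        intro w hw
        have := hu w hw
        rw [Prod.mk.injEq] at this
        exact this.2
      simp only [Prod.mk.injEq]
      refine ⟨a1, a2, a3, hinn, ?_⟩
      show (if (gs ⟨nb G, kc G, b G, u, q⟩ (s G) t).act v then
          b G v + u ≤ (inn1 ⟨nb G, kc G, b G, u, q⟩ (gs ⟨nb G, kc G, b G, u, q⟩ (s G) t)
            (t % q) v).card
          else b G v + 2 * u ≤ (inn1 ⟨nb G, kc G, b G, u, q⟩
            (gs ⟨nb G, kc G, b G, u, q⟩ (s G) t) (t % q) v).card + 1) =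
        (if (gs ⟨nb G', kc G', b G', u, q⟩ (s G') t).act v then
          b G' v + u ≤ (inn1 ⟨nb G', kc G', b G', u, q⟩
            (gs ⟨nb G', kc G', b G', u, q⟩ (s G') t) (t % q) v).card
          else b G' v + 2 * u ≤ (inn1 ⟨nb G', kc G', b G', u, q⟩
            (gs ⟨nb G', kc G', b G', u, q⟩ (s G') t) (t % q) v).card + 1)
      rw [hinn, a3]
      simp only [a5]
    have e : r + 3 * (t + 1) = r + 3 * t + 1 + 1 + 1 := by ring
    rw [e]
    exact hnew

/-- All that a node knows between the phases. -/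
noncomputable def know (d : ℕ) (o : Network → OS) (G : Network) (v : ℕ) :
    Finset ℕ × (ℕ → ℕ → ℕ) × Finset ℕ × ℕ :=
  (nb G v, fun q => kap d q (d * d) G v, (o G).inn v, (o G).b v)

theorem local_phase {d r : ℕ} {o : Network → OS} (h : IsLocal r (know d o)) (u q S : ℕ) :
    IsLocal (r + 3 * S)
      (know d (fun G => phase (nb G) (kap d q (d * d) G) u q S (o G))) := by
  have h1 : IsLocal r (fun G v => (nb G v, (fun G => kap d q (d * d) G) G v,
      (fun G => (o G).b) G v, ((fun G => start u (o G)) G).inn v,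
      ((fun G => start u (o G)) G).act v)) := by
    intro G G' v hA
    have h2 := h G G' v hA
    unfold know at h2
    simp only [Prod.mk.injEq] at h2
    obtain ⟨a1, a2, a3, a4⟩ := h2
    simp only [Prod.mk.injEq]
    refine ⟨a1, congrFun a2 q, a4, a3, ?_⟩
    show ((o G).b v + 2 * u ≤ ((o G).inn v).card + 1) =
      ((o G').b v + 2 * u ≤ ((o G').inn v).card + 1)
    rw [a3, a4]
  have h3 := local_gs u q h1 S
  intro G G' v hA
  have h4 := h3 G G' v hA
  have h5 := (h.mono (show r ≤ r + 3 * S by omega)) G G' v hA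
  unfold know at h5 ⊢
  simp only [Prod.mk.injEq] at h4 h5 ⊢
  obtain ⟨a1, a2, a3, a4⟩ := h5
  obtain ⟨-, -, b3, b4, b5⟩ := h4
  refine ⟨a1, a2, b4, ?_⟩
  show (if (gs ⟨nb G, kap d q (d * d) G, (o G).b, u, q⟩ (start u (o G)) S).act v then
      (o G).b v + 1 else (o G).b v) =
    (if (gs ⟨nb G', kap d q (d * d) G', (o G').b, u, q⟩ (start u (o G')) S).act v then
      (o G').b v + 1 else (o G').b v)
  rw [a4]
  simp only [b5]

theorem local_phs {d r : ℕ} {o : Network → OS} (h : IsLocal r (know d o)) (u q S k : ℕ) :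
    IsLocal (r + 3 * (k * S))
      (know d (fun G => phs (nb G) (kap d q (d * d) G) u q S k (o G))) := by
  induction k with
  | zero =>
    rw [zero_mul, mul_zero, add_zero]
    exact h
  | succ k ih =>
    have h1 := local_phase ih u q S
    have e : r + 3 * ((k + 1) * S) = r + 3 * (k * S) + 3 * S := by ring
    rw [e]
    exact h1

theorem local_stg {d : ℕ} (j : ℕ) : ∀ {r : ℕ} {o : Network → OS}, IsLocal r (know d o) →
    IsLocal (r + 3 * time d j)
      (know d (fun G => stg (nb G) (fun q => kap d q (d * d) G) d j (o G))) := by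
  induction j with
  | zero =>
    intro r o h
    exact h
  | succ j ih =>
    intro r o h
    have h1 := ih (local_phs h (2 ^ j) (qq d j) (d * MM d j) (3 * 2 ^ j))
    have e : r + 3 * time d (j + 1) =
        r + 3 * (3 * 2 ^ j * (d * MM d j)) + 3 * time d j := by
      rw [time]
      ring
    rw [e]
    exact h1

theorem solvable (d : ℕ) : SolvableIn d (d * d + 2 + 3 * time d (Nat.size d)) := by
  obtain ⟨o, ho⟩ : ∃ o : Network → OS, ∀ G, o G =
      ⟨fun v => (nb G v).filter (fun w => w < v), fun _ => 0⟩ := ⟨_, fun _ => rfl⟩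
  have hk : IsLocal (d * d + 2) (know d o) := by
    intro G G' v hA
    have h1 := (isLocal_nb.mono (show 1 ≤ d * d + 2 by omega)) G G' v hA
    unfold know
    rw [ho, ho]
    rw [Prod.mk.injEq, Prod.mk.injEq, Prod.mk.injEq]
    refine ⟨h1, ?_, ?_, rfl⟩
    · funext q
      exact isLocal_kap d q (d * d) G G' v hA
    · show (nb G v).filter (fun w => w < v) = (nb G' v).filter (fun w => w < v)
      rw [h1]
  have hloc := local_stg (Nat.size d) hk
  have hloc' : IsLocal (d * d + 2 + 3 * time d (Nat.size d)) (fun G v =>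
      (↑((stg (nb G) (fun q => kap d q (d * d) G) d (Nat.size d) (o G)).inn v) : Set ℕ)) := by
    intro G G' v hA
    have h1 := hloc G G' v hA
    unfold know at h1
    simp only [Prod.mk.injEq] at h1
    show (↑((stg (nb G) (fun q => kap d q (d * d) G) d (Nat.size d) (o G)).inn v) : Set ℕ) =
      ↑((stg (nb G') (fun q => kap d q (d * d) G') d (Nat.size d) (o G')).inn v)
    rw [h1.2.2.1]
  obtain ⟨A, hA⟩ := exists_algorithm_of_local hloc'
  refine ⟨A, fun G hG => ?_⟩
  have hd : ∀ v, (nb G v).card ≤ d := fun v => card_nb (hG v)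
  have hgood : ∀ q, 0 < q → GoodK (nb G) (kap d q (d * d) G) q d (2 * (2 * d / q + 1)) :=
    fun q hq =>
      { symm := fun u v h => mem_nb_comm.1 h
        irr := fun v => not_mem_nb_self
        deg := hd
        cls := fun v c hc => class_card hd hq v c hc
        comm := fun v w h => kap_comm h
        lt := fun v w h => kap_lt hd hq h
        qpos := hq }
  have hO : OInv (nb G) (o G) := by
    rw [ho]
    refine ⟨fun v => Finset.filter_subset _ _, ?_, fun v => Nat.zero_le _, fun v w _ => by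
      show (0 : ℕ) ≤ 0 + 1
      omega⟩
    intro u v huv
    have huv' : v ∈ nb G u := mem_nb_comm.1 huv
    have hne : u ≠ v := by
      rintro rfl
      exact not_mem_nb_self huv
    show u ∈ (nb G v).filter (fun w => w < v) ↔ v ∉ (nb G u).filter (fun w => w < u)
    rw [Finset.mem_filter, Finset.mem_filter]
    constructor
    · rintro ⟨-, h1⟩ ⟨-, h2⟩
      omega
    · intro h1
      refine ⟨huv, ?_⟩
      by_contra h2
      exact h1 ⟨huv', by omega⟩
  have hsz : d < 2 ^ Nat.size d := Nat.lt_size_self d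
  obtain ⟨hI, hload⟩ := stg_spec (kcs := fun q => kap d q (d * d) G) hgood (Nat.size d) (o G) hO
    (by
      intro v
      rw [ho]
      show ((nb G v).filter (fun w => w < v)).card + 3 ≤ 0 + 3 * 2 ^ Nat.size d
      have h1 := Finset.card_filter_le (nb G v) (fun w => w < v)
      have h2 := hd v
      omega)
  have hfun : (fun v => A.out (A.run G (d * d + 2 + 3 * time d (Nat.size d)) v)) =
      fun v => (↑((stg (nb G) (fun q => kap d q (d * d) G) d (Nat.size d) (o G)).inn v) :
        Set ℕ) := by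
    funext v
    exact hA G v
  rw [hfun]
  refine ⟨?_, ?_, ?_⟩
  · intro u v huv
    have h1 := hI.sub v (Finset.mem_coe.1 huv)
    exact (mem_nb.1 h1).symm
  · intro u v huv
    have h1 : u ∈ nb G v := mem_nb.2 huv.symm
    have h2 := hI.ori u v h1
    rw [Finset.mem_coe, Finset.mem_coe]
    exact h2
  · intro u v huv
    rw [Set.ncard_coe_finset, Set.ncard_coe_finset]
    have h1 := hload v
    have h2 := hI.lip v u (Finset.mem_coe.1 huv)
    have h3 := hI.ble u
    omega

end HEO71
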