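import Mathlib
import Pool.Agent.HEO71.Stage

/-!
# The number of rounds

Let `s = sqrt d`, `w = sqrt 2`.  For `i < Nat.size d` we have `2 ^ i ≤ d` (`Nat.lt_size`), so
`d / 2 ^ i ≥ 1` and `qq d i ≤ 2 * sqrt (d / 2 ^ i) = 2 * s / w ^ i` (real square root;
`Real.nat_sqrt_le_real_sqrt`).  Hence `2 ^ i * (qq d i) ^ 3 ≤ 8 * s ^ 3 / w ^ i` (as `2 ^ i = w ^ (2 i)`).
`time_le`: induction on `j ≤ Nat.size d`:
`time d j ≤ 147 * d * 8 * s ^ 3 * (7 / 2) * (1 - 1 / w ^ j)`, because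
`(7 / 2) * (1 / w ^ j - 1 / w ^ (j + 1)) ≥ 1 / w ^ j` (`w ≥ 7 / 5`).
`rounds_le`: `d * d + 2 ≤ 3 * d * s ^ 3` for `d ≥ 1` and `3 * 147 * 28 = 12348`.
-/

namespace HEO71

private theorem num_qq {d j : ℕ} (hj : j < Nat.size d) :
    (2 : ℝ) ^ j * (qq d j : ℝ) ^ 3 ≤
      8 * (Real.sqrt d * Real.sqrt d * Real.sqrt d) * (1 / (Real.sqrt 2) ^ j) := by
  have h2 : 2 ^ j ≤ d := Nat.lt_size.1 hj
  have hw0 : 0 < Real.sqrt 2 := Real.sqrt_pos.2 (by norm_num)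
  have hwj : 0 < (Real.sqrt 2) ^ j := pow_pos hw0 j
  have hww : (Real.sqrt 2) ^ j * (Real.sqrt 2) ^ j = 2 ^ j := by
    rw [← mul_pow, Real.mul_self_sqrt (by norm_num)]
  have h2r : (2 : ℝ) ^ j ≤ d := by exact_mod_cast h2
  have h2p : (0 : ℝ) < 2 ^ j := by positivity
  -- `sqrt (d / 2 ^ j) = sqrt d / w ^ j`
  have hx : Real.sqrt ((d : ℝ) / 2 ^ j) = Real.sqrt d / (Real.sqrt 2) ^ j := by
    rw [Real.sqrt_div (Nat.cast_nonneg d), ← hww, Real.sqrt_mul_self hwj.le]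
  have h1 : (1 : ℝ) ≤ Real.sqrt ((d : ℝ) / 2 ^ j) := by
    rw [Real.one_le_sqrt, le_div_iff₀ h2p, one_mul]
    exact h2r
  have h3 : ((Nat.sqrt (d / 2 ^ j) : ℕ) : ℝ) ≤ Real.sqrt ((d : ℝ) / 2 ^ j) := by
    refine Real.nat_sqrt_le_real_sqrt.trans (Real.sqrt_le_sqrt ?_)
    have := @Nat.cast_div_le ℝ _ _ _ d (2 ^ j)
    push_cast at this
    exact this
  have h4 : (qq d j : ℝ) ≤ 2 * (Real.sqrt d / (Real.sqrt 2) ^ j) := by
    unfold qq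
    push_cast
    rw [← hx]
    linarith
  have h5 : (qq d j : ℝ) ^ 3 ≤ (2 * (Real.sqrt d / (Real.sqrt 2) ^ j)) ^ 3 :=
    pow_le_pow_left₀ (Nat.cast_nonneg _) h4 3
  calc (2 : ℝ) ^ j * (qq d j : ℝ) ^ 3 ≤ 2 ^ j * (2 * (Real.sqrt d / (Real.sqrt 2) ^ j)) ^ 3 :=
        mul_le_mul_of_nonneg_left h5 h2p.le
    _ = 8 * (Real.sqrt d * Real.sqrt d * Real.sqrt d) * (1 / (Real.sqrt 2) ^ j) := by
        rw [← hww]
        field_simp
        ring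

theorem time_le {d : ℕ} (hd : 1 ≤ d) (j : ℕ) (hj : j ≤ Nat.size d) :
    (time d j : ℝ) ≤ 4116 * ((d : ℝ) * (Real.sqrt d * Real.sqrt d * Real.sqrt d)) *
      (1 - 1 / (Real.sqrt 2) ^ j) := by
  induction j with
  | zero => simp [time]
  | succ j ih =>
    have h1 := ih (by omega)
    have h2 := num_qq (d := d) (j := j) (by omega)
    have hs0 : 0 ≤ Real.sqrt d := Real.sqrt_nonneg _
    have hw0 : 0 < Real.sqrt 2 := Real.sqrt_pos.2 (by norm_num)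
    have hw : (7 / 5 : ℝ) ≤ Real.sqrt 2 := Real.le_sqrt_of_sq_le (by norm_num)
    have hwj : 0 < (Real.sqrt 2) ^ j := pow_pos hw0 j
    have hd0 : (0 : ℝ) ≤ d := Nat.cast_nonneg d
    obtain ⟨A, hA⟩ : ∃ A, A = (d : ℝ) * (Real.sqrt d * Real.sqrt d * Real.sqrt d) := ⟨_, rfl⟩
    have hA0 : 0 ≤ A := by rw [hA]; positivity
    have h3 : ((time d (j + 1) : ℕ) : ℝ) = 147 * ((d : ℝ) * (2 ^ j * (qq d j : ℝ) ^ 3)) +
        (time d j : ℝ) := by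
      simp only [time, MM]
      push_cast
      ring
    have h4 : (d : ℝ) * (2 ^ j * (qq d j : ℝ) ^ 3) ≤ 8 * A * (1 / (Real.sqrt 2) ^ j) := by
      have := mul_le_mul_of_nonneg_left h2 hd0
      calc (d : ℝ) * (2 ^ j * (qq d j : ℝ) ^ 3) ≤ _ := this
        _ = 8 * A * (1 / (Real.sqrt 2) ^ j) := by rw [hA]; ring
    have h5 : 1 / (Real.sqrt 2) ^ (j + 1) ≤ 5 / 7 * (1 / (Real.sqrt 2) ^ j) := by
      rw [pow_succ, one_div, one_div, mul_inv, mul_comm]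
      refine mul_le_mul_of_nonneg_right ?_ (inv_nonneg.2 hwj.le)
      rw [inv_le_comm₀ hw0 (by norm_num)]
      linarith
    have h6 : A * (1 / (Real.sqrt 2) ^ (j + 1)) ≤ A * (5 / 7 * (1 / (Real.sqrt 2) ^ j)) :=
      mul_le_mul_of_nonneg_left h5 hA0
    rw [h3, ← hA]
    rw [← hA] at h1
    nlinarith

theorem rounds_le {d : ℕ} (hd : 1 ≤ d) :
    ((d * d + 2 + 3 * time d (Nat.size d) : ℕ) : ℝ) ≤ 12351 * (d : ℝ) ^ (5 / 2 : ℝ) := by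
  have h1 := time_le hd (Nat.size d) le_rfl
  have hd1 : (1 : ℝ) ≤ d := by exact_mod_cast hd
  have hs1 : 1 ≤ Real.sqrt d := by rw [Real.one_le_sqrt]; exact hd1
  have hss : Real.sqrt d * Real.sqrt d = d := Real.mul_self_sqrt (by linarith)
  have hw0 : 0 < Real.sqrt 2 := Real.sqrt_pos.2 (by norm_num)
  have hwj : 0 < 1 / (Real.sqrt 2) ^ (Nat.size d) := by positivity
  have he : (d : ℝ) ^ (5 / 2 : ℝ) = (d : ℝ) * (Real.sqrt d * Real.sqrt d * Real.sqrt d) := by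
    rw [hss, show (5 / 2 : ℝ) = 2 + 1 / 2 by norm_num, Real.rpow_add (by linarith),
      Real.sqrt_eq_rpow]
    have : (d : ℝ) ^ (2 : ℝ) = d * d := by
      rw [show (2 : ℝ) = ((2 : ℕ) : ℝ) by norm_num, Real.rpow_natCast]
      ring
    rw [this]
    ring
  rw [he]
  obtain ⟨A, hA⟩ : ∃ A, A = (d : ℝ) * (Real.sqrt d * Real.sqrt d * Real.sqrt d) := ⟨_, rfl⟩
  rw [← hA] at h1 ⊢
  have hAd : (d : ℝ) * d ≤ A := by
    rw [hA, hss]
    nlinarith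
  have hA1 : 1 ≤ A := by nlinarith
  have h2 : (time d (Nat.size d) : ℝ) ≤ 4116 * A := by nlinarith
  push_cast
  linarith

end HEO71
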